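import Pool.Agent.Y503.HS.Sub
import Pool.Agent.Helper831.HQ.Defs

/-!
# The Hilbert space of controls is infinite dimensional, and the metric is positive definite
-/

open scoped Quaternion Matrix.Norms.L2Operator ENNReal
open Set MeasureTheory

noncomputable section

namespace Pool.Agent.Y503.HG

open HQ Pool.Agent.Y503.HS

/-- a sequence of disjoint intervals -/
def Sn (n : ℕ) : Set ℝ := Ioc (1 / ((n : ℝ) + 2)) (1 / ((n : ℝ) + 1))

theorem Sn_meas (n : ℕ) : MeasurableSet (Sn n) := measurableSet_Ioc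

theorem Sn_disj {m n : ℕ} (h : m < n) : Sn m ∩ Sn n = ∅ := by
  rw [Set.eq_empty_iff_forall_notMem]
  rintro x ⟨h1, h2⟩
  have h3 : (1 : ℝ) / ((m : ℝ) + 2) < x := h1.1
  have h4 : x ≤ 1 / ((n : ℝ) + 1) := h2.2
  have h5 : (m : ℝ) + 1 ≤ n := by exact_mod_cast h
  have h6 : 1 / ((n : ℝ) + 1) ≤ 1 / ((m : ℝ) + 2) := by
    apply div_le_div_of_nonneg_left zero_le_one
    · positivity
    · linarith
  linarith

theorem Sn_sub (n : ℕ) : Sn n ⊆ Ioc 0 1 := by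
  rintro x ⟨h1, h2⟩
  refine ⟨lt_trans (by positivity) h1, h2.trans ?_⟩
  rw [div_le_one (by positivity)]
  have : (0 : ℝ) ≤ n := Nat.cast_nonneg n
  linarith

theorem mu_Sn (n : ℕ) : mu.real (Sn n) ≠ 0 := by
  have h1 : mu (Sn n) = volume (Sn n) := by
    rw [Measure.restrict_apply (Sn_meas n), Set.inter_eq_left.2 (Sn_sub n)]
  unfold Measure.real
  rw [h1]
  unfold Sn
  rw [Real.volume_Ioc, ENNReal.toReal_ofReal]
  · have : (1 : ℝ) / ((n : ℝ) + 2) < 1 / ((n : ℝ) + 1) := by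
      apply div_lt_div_of_pos_left zero_lt_one
      · positivity
      · linarith
    linarith
  · have : (1 : ℝ) / ((n : ℝ) + 2) < 1 / ((n : ℝ) + 1) := by
      apply div_lt_div_of_pos_left zero_lt_one
      · positivity
      · linarith
    linarith

/-- an orthogonal sequence -/
def vn (n : ℕ) : L2 := indicatorConstLp 2 (Sn_meas n) (measure_ne_top mu _) e0

theorem inner_vn (m n : ℕ) : inner ℝ (vn m) (vn n) = mu.real (Sn m ∩ Sn n) := by
  unfold vn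
  rw [L2.inner_indicatorConstLp_indicatorConstLp]
  rw [real_inner_self_eq_norm_sq, e0_norm]
  simp

theorem vn_indep : LinearIndependent ℝ vn := by
  apply linearIndependent_of_ne_zero_of_inner_eq_zero
  · intro n h
    have := inner_vn n n
    rw [h, inner_zero_left, Set.inter_self] at this
    exact mu_Sn n this.symm
  · intro m n h
    show inner ℝ (vn m) (vn n) = 0
    rw [inner_vn]
    have : Sn m ∩ Sn n = ∅ := by
      rcases lt_or_gt_of_ne h with h | h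
      · exact Sn_disj h
      · rw [Set.inter_comm]; exact Sn_disj h
    rw [this]
    simp

theorem HH_infinite : ¬ FiniteDimensional ℝ HH := by
  intro h
  have h1 : Function.Surjective (p1 : HH →L[ℝ] L2).toLinearMap := by
    intro ξ
    exact ⟨mk ξ 0 0, rfl⟩
  have h2 : Module.Finite ℝ L2 := Module.Finite.of_surjective _ h1
  exact Module.Finite.not_linearIndependent_of_infinite vn vn_indep

theorem QF_pos (a b : ℝ) (ξ : ℍ × ℍ) (hξ : ξ ≠ 0) : 0 < QF a b ξ := by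
  obtain ⟨x, y⟩ := ξ
  have hx : ‖x‖ ^ 2 = x.re ^ 2 + x.imI ^ 2 + x.imJ ^ 2 + x.imK ^ 2 := by
    rw [← Quaternion.normSq_eq_norm_mul_self .. |>.trans (sq ‖x‖).symm, Quaternion.normSq_def']
  have hy : ‖y‖ ^ 2 = y.re ^ 2 + y.imI ^ 2 + y.imJ ^ 2 + y.imK ^ 2 := by
    rw [← Quaternion.normSq_eq_norm_mul_self .. |>.trans (sq ‖y‖).symm, Quaternion.normSq_def']
  have hpos : 0 < ‖x‖ ^ 2 + ‖y‖ ^ 2 := by
    by_contra hn
    have h1 : ‖x‖ ^ 2 = 0 := by nlinarith [sq_nonneg ‖x‖, sq_nonneg ‖y‖]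
    have h2 : ‖y‖ ^ 2 = 0 := by nlinarith [sq_nonneg ‖x‖, sq_nonneg ‖y‖]
    apply hξ
    have h3 : x = 0 := norm_eq_zero.1 (pow_eq_zero_iff (two_ne_zero) |>.1 h1)
    have h4 : y = 0 := norm_eq_zero.1 (pow_eq_zero_iff (two_ne_zero) |>.1 h2)
    rw [h3, h4]; rfl
  show 0 < ‖x‖ ^ 2 + ‖y‖ ^ 2 - (a * x.imI + b * y.imI) ^ 2 / (1 + a ^ 2 + b ^ 2)
  have hM : (0 : ℝ) < 1 + a ^ 2 + b ^ 2 := by positivity
  have h6 : x.imI ^ 2 ≤ ‖x‖ ^ 2 := by
    rw [hx]; nlinarith [sq_nonneg x.re, sq_nonneg x.imJ, sq_nonneg x.imK]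
  have h7 : y.imI ^ 2 ≤ ‖y‖ ^ 2 := by
    rw [hy]; nlinarith [sq_nonneg y.re, sq_nonneg y.imJ, sq_nonneg y.imK]
  have h5 : (a * x.imI + b * y.imI) ^ 2 ≤ (a ^ 2 + b ^ 2) * (x.imI ^ 2 + y.imI ^ 2) := by
    nlinarith [sq_nonneg (a * y.imI - b * x.imI)]
  have h8 : (a * x.imI + b * y.imI) ^ 2 ≤ (a ^ 2 + b ^ 2) * (‖x‖ ^ 2 + ‖y‖ ^ 2) :=
    h5.trans (mul_le_mul_of_nonneg_left (by linarith) (by positivity))
  rw [sub_pos, div_lt_iff₀ hM]
  nlinarith

end Pool.Agent.Y503.HG
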