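import Pool.Agent.Y503.HG.Hil

/-!
# For an irrational slope the quotient is not a biquotient

This generalises `Pool/Agent/Helper831/HQ/Main.lean`, which treats the slope `√2`.
-/

open scoped Quaternion Matrix.Norms.L2Operator ENNReal
open Set MeasureTheory

noncomputable section

namespace Pool.Agent.Y503.HG

open HQ Pool.Agent.Y503.HS

variable {α β : ℝ}

/-- the curves `Ψ(s f) q` -/
def gamg (q : RS α β) (κ : ℝ) (s : ℝ) : RS α β :=
  RS.mk (Psi (s * 1) (s * 1) (s * (α * κ)) (s * (β * κ)) q.val)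
    (dFg_Psi α β _ _ _ _ q.val q.val q.mem q.mem).2.1

theorem dFg_Psi_diff (q : ℍ × ℍ) (hq : q ∈ S33) (a b c d a' b' c' d' : ℝ) :
    dFg α β (Psi a b c d q) (Psi a' b' c' d' q) =
      dFg α β q (Psi (a' - a) (b' - b) (c' - c) (d' - d) q) := by
  have h1 := (dFg_Psi α β a b c d q (Psi (a' - a) (b' - b) (c' - c) (d' - d) q) hq
    (dFg_Psi α β _ _ _ _ q q hq hq).2.1).1
  rw [← h1, (dFg_Psi α β a b c d q q hq hq).2.2.1]
  congr 2 <;> ring

theorem gamg_zero (q : RS α β) (κ : ℝ) : gamg q κ 0 = q := by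
  apply RS.ext'
  have h0 : E 0 = 1 := E_basic.2.2.1
  unfold gamg
  rw [RS.val_mk]
  simp [Psi, h0]

theorem gamg_dist (q : RS α β) (κ : ℝ) (hκ : κ = α * hop q.val.1 + β * hop q.val.2) (s s' : ℝ)
    (h : |s - s'| ≤ 1 / (20 * (1 + |κ|) * (scl α β * scl α β))) :
    dist (gamg q κ s) (gamg q κ s') = √(2 + κ ^ 2) * |s - s'| := by
  have hq := q.mem
  have hm := scl_pos α β
  have hm1 := one_le_scl α β
  have hN : 0 < √(2 + κ ^ 2) := Real.sqrt_pos.2 (by positivity)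
  have hN2 : √(2 + κ ^ 2) ^ 2 = 2 + κ ^ 2 := Real.sq_sqrt (by positivity)
  -- basic estimate
  have key : ∀ τ : ℝ, 0 ≤ τ → τ ≤ 1 / (20 * (1 + |κ|) * (scl α β * scl α β)) →
      √(2 + κ ^ 2) * τ ≤
        dFg α β q.val (Psi (τ * 1) (τ * 1) (τ * (α * κ)) (τ * (β * κ)) q.val) := by
    intro τ h0 h1
    have hk : 0 < 1 + |κ| := by positivity
    have h2 : τ * (20 * (1 + |κ|) * (scl α β * scl α β)) ≤ 1 := by
      rwa [le_div_iff₀ (by positivity)] at h1
    have hS : |τ * 1| + |τ * 1| + |τ * (α * κ)| + |τ * (β * κ)| ≤ 1 / (10 * scl α β) := by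
      rw [le_div_iff₀ (by positivity)]
      rw [abs_mul, abs_mul, abs_mul, abs_mul, abs_mul, abs_of_nonneg h0]
      simp only [abs_one, mul_one]
      have h3 : τ + τ + τ * (|α| * |κ|) + τ * (|β| * |κ|) ≤ τ * (2 * (1 + |κ|) * scl α β) := by
        unfold scl
        have : 0 ≤ τ * (|α| + |β| + |κ| + |α| * |κ| + |β| * |κ| + |α| + |β| + |κ|) := by positivity
        nlinarith
      calc (τ + τ + τ * (|α| * |κ|) + τ * (|β| * |κ|)) * (10 * scl α β)
          ≤ (τ * (2 * (1 + |κ|) * scl α β)) * (10 * scl α β) :=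
            mul_le_mul_of_nonneg_right h3 (by positivity)
        _ = τ * (20 * (1 + |κ|) * (scl α β * scl α β)) := by ring
        _ ≤ 1 := h2
    have h3 := dFg_lower α β q.val hq 1 1 _ _ _ _ hS
    have h4 : (1 : ℝ) ^ 2 + 1 ^ 2 + (α * (1 * hop q.val.1) + β * (1 * hop q.val.2)) ^ 2 =
        2 + κ ^ 2 := by
      rw [hκ]; ring
    rw [h4] at h3
    have h5 : 1 * (τ * 1) + 1 * (τ * 1) + 1 * hop q.val.1 * (τ * (α * κ)) +
        1 * hop q.val.2 * (τ * (β * κ)) = √(2 + κ ^ 2) * (√(2 + κ ^ 2) * τ) := by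
      have : √(2 + κ ^ 2) * (√(2 + κ ^ 2) * τ) = √(2 + κ ^ 2) ^ 2 * τ := by ring
      rw [this, hN2, hκ]; ring
    rw [h5] at h3
    exact le_of_mul_le_mul_left h3 hN
  have hup : ∀ τ : ℝ, dFg α β q.val (Psi (τ * 1) (τ * 1) (τ * (α * κ)) (τ * (β * κ)) q.val) ≤
      √(2 + κ ^ 2) * |τ| := by
    intro τ
    have := dFg_geod α β q.val hq 1 1 κ τ
    have e1 : (1 : ℝ) ^ 2 + 1 ^ 2 + κ ^ 2 = 2 + κ ^ 2 := by norm_num
    rw [e1] at this
    linarith [mul_comm (√(2 + κ ^ 2)) |τ|]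
  have hd : ∀ a b : ℝ, dist (gamg q κ a) (gamg q κ b) =
      dFg α β q.val (Psi ((b - a) * 1) ((b - a) * 1) ((b - a) * (α * κ)) ((b - a) * (β * κ))
        q.val) := by
    intro a b
    rw [RS.dist_eq]
    show dFg α β (Psi _ _ _ _ q.val) (Psi _ _ _ _ q.val) = _
    rw [dFg_Psi_diff q.val hq]
    congr 2 <;> ring
  have main : ∀ a b : ℝ, a ≤ b → |a - b| ≤ 1 / (20 * (1 + |κ|) * (scl α β * scl α β)) →
      dist (gamg q κ a) (gamg q κ b) = √(2 + κ ^ 2) * |a - b| := by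
    intro a b hab h
    rw [hd]
    have e : |a - b| = b - a := by rw [abs_sub_comm]; exact abs_of_nonneg (by linarith)
    apply le_antisymm
    · have := hup (b - a)
      rwa [abs_sub_comm b a] at this
    · rw [e] at h ⊢
      exact key _ (by linarith) h
  rcases le_total s s' with h1 | h1
  · exact main s s' h1 h
  · rw [dist_comm, abs_sub_comm]
    exact main s' s h1 (by rwa [abs_sub_comm])

/-- The data attached to one geodesic. -/
theorem datag {N : ℕ} (G : Subgroup (Matrix.unitaryGroup (Fin N) ℂ))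
    (hG : IsClosed (matSet G))
    (B : Matrix (Fin N) (Fin N) ℂ →ₗ[ℝ] Matrix (Fin N) (Fin N) ℂ →ₗ[ℝ] ℝ) (hB : IsBiinvariant G B)
    (f : G → RS α β) (hsurj : Function.Surjective f)
    (hlip : ∀ x y, ENNReal.ofReal (dist (f x) (f y)) ≤ dG G B x y)
    (hsub : ∀ (x : G) (q : RS α β) (ε : ℝ), 0 < ε →
      ∃ y, f y = q ∧ dG G B x y < ENNReal.ofReal (dist (f x) q + ε))
    (u : Matrix (Fin N) (Fin N) ℂ) (hu : ∀ v ∈ LieSet G, ∃ k : G, ∃ l : Fin N → ℝ,
      mt k * v * star (mt k) = Xd u l)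
    (q : RS α β) (κ : ℝ) (hκ : κ = α * hop q.val.1 + β * hop q.val.2) :
    ∃ l : Fin N → ℝ, Xd u l ∈ LieSet G ∧ B (Xd u l) (Xd u l) = 2 + κ ^ 2 ∧
      ∃ F : G → RS α β, (∀ a b, ENNReal.ofReal (dist (F a) (F b)) ≤ dG G B a b) ∧
        ∀ (s : ℝ) (a : G), mt a = NormedSpace.exp (s • Xd u l) → F a = gamg q κ s := by
  obtain ⟨n, L, e, hL, hLB, he, hbi⟩ := exists_biGrp G hG B hB
  have hN : 0 < √(2 + κ ^ 2) := Real.sqrt_pos.2 (by positivity)
  have hN2 : √(2 + κ ^ 2) ^ 2 = 2 + κ ^ 2 := Real.sq_sqrt (by positivity)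
  obtain ⟨g, hg⟩ := hsurj q
  have hm := scl_pos α β
  have hδ : 0 < 1 / (20 * (1 + |κ|) * (scl α β * scl α β)) := by positivity
  obtain ⟨v, hv, hv2⟩ := lift_geodesic hbi f hlip hsub (gamg q κ) (√(2 + κ ^ 2)) _ hN hδ
    (fun s t h => gamg_dist q κ hκ s t h) g (by rw [hg, gamg_zero])
  have hLv : L v ∈ LieSet G := (hL _).2 ⟨v, rfl⟩
  obtain ⟨k, l, hkl⟩ := hu _ hLv
  have hk1 := (mt_star k).1
  have hk2 := (mt_star k).2
  refine ⟨l, ?_, ?_, fun a => f (g * (k⁻¹ * a * k)), ?_, ?_⟩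
  · rw [← hkl]
    exact (LieSet_closed_ops G hG).2.2.2.1 _ (mt_mem k) _ hLv
  · rw [← hkl, hB.inv _ (mt_mem k) _ hLv _ hLv, hLB, real_inner_self_eq_norm_sq, hv, hN2]
  · intro a b
    refine (hlip _ _).trans ?_
    rw [hbi.left, hbi.right, hbi.left]
  · intro s a ha
    show f (g * (k⁻¹ * a * k)) = _
    rw [← hv2 s]
    congr 2
    apply mt_inj
    have h1 : mt (e (s • v)) = NormedSpace.exp (s • L v) := by
      rw [← map_smul]
      exact he _
    rw [h1, mt_mul, mt_mul, mt_inv, ha, ← hkl]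
    have h2 : s • (mt k * L v * star (mt k)) = mt k * (s • L v) * star (mt k) := by
      rw [mul_smul_comm, smul_mul_assoc]
    rw [h2]
    have h3 : NormedSpace.exp (mt k * (s • L v) * star (mt k)) =
        mt k * NormedSpace.exp (s • L v) * star (mt k) := by
      let U : (Matrix (Fin N) (Fin N) ℂ)ˣ := ⟨mt k, star (mt k), hk2, hk1⟩
      exact Matrix.exp_units_conj U (s • L v)
    rw [h3]
    calc star (mt k) * (mt k * NormedSpace.exp (s • L v) * star (mt k)) * mt k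
        = (star (mt k) * mt k) * NormedSpace.exp (s • L v) * (star (mt k) * mt k) := by
          simp only [mul_assoc]
      _ = NormedSpace.exp (s • L v) := by rw [hk1, one_mul, mul_one]

/-- the frequency vector -/
def frg (α β κ : ℝ) : Fin 4 → ℝ := ![1, 1, α * κ, β * κ]

/-- On the hull of `(l, f)` the map `F` is the linear flow. -/
theorem flow_on_hullg {N : ℕ} (G : Subgroup (Matrix.unitaryGroup (Fin N) ℂ))
    (hG : IsClosed (matSet G))
    (B : Matrix (Fin N) (Fin N) ℂ →ₗ[ℝ] Matrix (Fin N) (Fin N) ℂ →ₗ[ℝ] ℝ) (hB : IsBiinvariant G B)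
    (u : Matrix (Fin N) (Fin N) ℂ) (hu : u ∈ Matrix.unitaryGroup (Fin N) ℂ)
    (l : Fin N → ℝ) (hl : Xd u l ∈ LieSet G) (q : RS α β) (κ : ℝ) (F : G → RS α β)
    (hF : ∀ a b, ENNReal.ofReal (dist (F a) (F b)) ≤ dG G B a b)
    (hF2 : ∀ (s : ℝ) (a : G), mt a = NormedSpace.exp (s • Xd u l) → F a = gamg q κ s)
    (x : Fin (N + 4) → ℝ) (hx : x ∈ hull (Fin.append l (frg α β κ))) (a : G)
    (ha : mt a = NormedSpace.exp (Xd u (fun j => x (Fin.castAdd 4 j)))) :
    (F a).val = Psi (x (Fin.natAdd N 0)) (x (Fin.natAdd N 1)) (x (Fin.natAdd N 2))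
      (x (Fin.natAdd N 3)) q.val := by
  have hq := q.mem
  set P : RS α β := RS.mk (Psi (x (Fin.natAdd N 0)) (x (Fin.natAdd N 1)) (x (Fin.natAdd N 2))
      (x (Fin.natAdd N 3)) q.val) (dFg_Psi α β _ _ _ _ q.val q.val hq hq).2.1 with hP
  suffices h : F a = P by rw [h, hP, RS.val_mk]
  rw [← dist_le_zero]
  -- continuity of the norm of `Xd u θ`
  have hcont : Continuous fun θ : Fin (N + 4) → ℝ =>
      √(B (Xd u (fun j => θ (Fin.castAdd 4 j))) (Xd u (fun j => θ (Fin.castAdd 4 j)))) := by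
    have h1 : Continuous fun θ : Fin (N + 4) → ℝ => Xd u (fun j => θ (Fin.castAdd 4 j)) := by
      unfold Xd
      refine (continuous_const.matrix_mul ?_).matrix_mul continuous_const
      apply Continuous.matrix_diagonal
      apply continuous_pi
      intro j
      exact (Complex.continuous_ofReal.comp (continuous_apply _)).mul continuous_const
    have h2 : Continuous fun p : Matrix (Fin N) (Fin N) ℂ × Matrix (Fin N) (Fin N) ℂ => B p.1 p.2 := by
      have h3 : Continuous fun X : Matrix (Fin N) (Fin N) ℂ => LinearMap.toContinuousLinearMap (B X) :=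
        (LinearMap.toContinuousLinearMap.toLinearMap ∘ₗ B).continuous_of_finiteDimensional
      exact (h3.comp continuous_fst).clm_apply continuous_snd
    exact (h2.comp (h1.prodMk h1)).sqrt
  apply le_of_forall_pos_le_add
  intro ε hε
  rw [zero_add]
  have h0 : √(B (Xd u (fun j => (0 : Fin (N + 4) → ℝ) (Fin.castAdd 4 j)))
      (Xd u (fun j => (0 : Fin (N + 4) → ℝ) (Fin.castAdd 4 j)))) = 0 := by
    simp [Xd]
  obtain ⟨η, hη, hη2⟩ := Metric.continuousAt_iff.1 (hcont.continuousAt (x := 0)) (ε / 2) (half_pos hε)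
  rw [h0] at hη2
  set η' := min η (ε / 8) with hη'
  have hη'0 : 0 < η' := lt_min hη (by positivity)
  obtain ⟨τ, k, hk, hτ⟩ := kron_strong (N + 4) (Fin.append l (frg α β κ)) x hx (η' / 2)
    (by positivity)
  set θ : Fin (N + 4) → ℝ :=
    fun j => τ * Fin.append l (frg α β κ) j - x j - 2 * Real.pi * k j with hθ
  have hθh : θ ∈ hull (Fin.append l (frg α β κ)) := by
    intro m hm
    have h1 := hx m hm
    have h2 := hk m hm
    have : ∑ j, (m j : ℝ) * θ j = τ * ∑ j, (m j : ℝ) * Fin.append l (frg α β κ) j -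
        ∑ j, (m j : ℝ) * x j - 2 * Real.pi * ∑ j, (m j : ℝ) * k j := by
      rw [Finset.mul_sum, Finset.mul_sum, ← Finset.sum_sub_distrib, ← Finset.sum_sub_distrib]
      apply Finset.sum_congr rfl
      intro j _
      simp only [hθ]
      ring
    rw [this, hm, h1, h2]
    ring
  have hθ0 : dist θ 0 < η := by
    rw [dist_pi_lt_iff hη]
    intro j
    rw [Pi.zero_apply, Real.dist_eq, sub_zero]
    calc |θ j| < η' / 2 := hτ j
      _ < η' := by linarith
      _ ≤ η := min_le_left _ _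
  have hθ1 := hη2 hθ0
  rw [Real.dist_eq, sub_zero, abs_of_nonneg (Real.sqrt_nonneg _)] at hθ1
  -- the elements
  have hXθ := Xd_mem' G hG u hu l hl (frg α β κ) θ hθh
  obtain ⟨gθ, hgθ, hgθ2⟩ : ∃ g ∈ G, (g : Matrix (Fin N) (Fin N) ℂ) =
      NormedSpace.exp (Xd u (fun j => θ (Fin.castAdd 4 j))) := by
    have := hXθ 1
    rw [one_smul] at this
    exact this
  obtain ⟨gτ, hgτ, hgτ2⟩ : ∃ g ∈ G, (g : Matrix (Fin N) (Fin N) ℂ) =
      NormedSpace.exp (τ • Xd u l) := hl τ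
  set bθ : G := ⟨gθ, hgθ⟩ with hbθ
  set bτ : G := ⟨gτ, hgτ⟩ with hbτ
  have hbθm : mt bθ = NormedSpace.exp (Xd u (fun j => θ (Fin.castAdd 4 j))) := hgθ2
  have hbτm : mt bτ = NormedSpace.exp (τ • Xd u l) := hgτ2
  have hu1 : star u * u = 1 := (Matrix.mem_unitaryGroup_iff'.1 hu)
  have hprod : bτ = a * bθ := by
    apply mt_inj
    rw [mt_mul, hbτm, ha, hbθm]
    have e1 := (Xd_exp u hu l τ).1
    have e2 := (Xd_exp u hu (fun j => x (Fin.castAdd 4 j)) 1).1
    have e3 := (Xd_exp u hu (fun j => θ (Fin.castAdd 4 j)) 1).1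
    rw [one_smul] at e2 e3
    rw [e1, e2, e3]
    have : u * Matrix.diagonal (fun j => Complex.exp (((1 * x (Fin.castAdd 4 j) : ℝ) : ℂ) * Complex.I)) * star u *
        (u * Matrix.diagonal (fun j => Complex.exp (((1 * θ (Fin.castAdd 4 j) : ℝ) : ℂ) * Complex.I)) * star u) =
        u * (Matrix.diagonal (fun j => Complex.exp (((1 * x (Fin.castAdd 4 j) : ℝ) : ℂ) * Complex.I)) *
          (star u * u) * Matrix.diagonal (fun j => Complex.exp (((1 * θ (Fin.castAdd 4 j) : ℝ) : ℂ) * Complex.I))) * star u := by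
      simp only [mul_assoc]
    rw [this, hu1, mul_one, Matrix.diagonal_mul_diagonal]
    congr 3
    funext j
    rw [← Complex.exp_add]
    have h3 : (((τ * l j : ℝ) : ℂ) * Complex.I) = (((1 * x (Fin.castAdd 4 j) : ℝ) : ℂ) * Complex.I +
        ((1 * θ (Fin.castAdd 4 j) : ℝ) : ℂ) * Complex.I) + (k (Fin.castAdd 4 j) : ℂ) * (2 * Real.pi * Complex.I) := by
      have : τ * l j = x (Fin.castAdd 4 j) + θ (Fin.castAdd 4 j) + 2 * Real.pi * k (Fin.castAdd 4 j) := by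
        simp only [hθ, Fin.append_left]
        ring
      rw [this]
      push_cast
      ring
    rw [h3]
    exact Complex.exp_periodic.int_mul (k (Fin.castAdd 4 j)) _
  -- first distance
  have hd1 : dist (F a) (F bτ) < ε / 2 := by
    obtain ⟨n, L, e, hL, hLB, he, hbi⟩ := exists_biGrp G hG B hB
    obtain ⟨y, hy⟩ := (hL _).1 hXθ
    have hey : e y = bθ := by
      apply mt_inj
      rw [hbθm, ← hy]
      exact he y
    have e0 : e 0 = 1 := (word_basic hbi).1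
    have h1 := hF a bτ
    have h2 : dG G B a bτ ≤ ENNReal.ofReal ‖y‖ := by
      rw [hprod]
      have : dG G B a (a * bθ) = dG G B (a * 1) (a * bθ) := by rw [mul_one]
      rw [this, hbi.left, ← e0, ← hey]
      refine (hbi.d_exp 0 y).trans ?_
      rw [zero_sub, norm_neg]
    have h3 := h1.trans h2
    rw [ENNReal.ofReal_le_ofReal_iff (norm_nonneg _)] at h3
    have h4 : ‖y‖ = √(B (Xd u (fun j => θ (Fin.castAdd 4 j))) (Xd u (fun j => θ (Fin.castAdd 4 j)))) := by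
      rw [← hy, hLB, real_inner_self_eq_norm_sq, Real.sqrt_sq (norm_nonneg _)]
    rw [h4] at h3
    exact lt_of_le_of_lt h3 hθ1
  -- second distance
  have hd2 : dist (F bτ) P ≤ ε / 2 := by
    rw [hF2 τ bτ hbτm, dist_comm, RS.dist_eq]
    show dFg α β (Psi _ _ _ _ q.val) (Psi _ _ _ _ q.val) ≤ _
    have hper := Psi_periodic (x (Fin.natAdd N 0) + θ (Fin.natAdd N 0)) (x (Fin.natAdd N 1) + θ (Fin.natAdd N 1))
      (x (Fin.natAdd N 2) + θ (Fin.natAdd N 2)) (x (Fin.natAdd N 3) + θ (Fin.natAdd N 3))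
      (fun i => k (Fin.natAdd N i)) q.val
    have hfr : ∀ i : Fin 4, x (Fin.natAdd N i) + θ (Fin.natAdd N i) + 2 * Real.pi * k (Fin.natAdd N i) =
        τ * frg α β κ i := by
      intro i
      simp only [hθ, Fin.append_right]
      ring
    have e0 : x (Fin.natAdd N 0) + θ (Fin.natAdd N 0) + 2 * Real.pi * k (Fin.natAdd N 0) = τ * 1 := hfr 0
    have e1 : x (Fin.natAdd N 1) + θ (Fin.natAdd N 1) + 2 * Real.pi * k (Fin.natAdd N 1) = τ * 1 := hfr 1
    have e2 : x (Fin.natAdd N 2) + θ (Fin.natAdd N 2) + 2 * Real.pi * k (Fin.natAdd N 2) =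
      τ * (α * κ) := hfr 2
    have e3 : x (Fin.natAdd N 3) + θ (Fin.natAdd N 3) + 2 * Real.pi * k (Fin.natAdd N 3) =
      τ * (β * κ) := hfr 3
    simp only [e0, e1, e2, e3] at hper
    rw [hper, dFg_Psi_diff q.val hq]
    refine ((dFg_Psi α β _ _ _ _ q.val q.val hq hq).2.2.2).trans ?_
    have hb : ∀ j, |θ j| ≤ ε / 8 := by
      intro j
      have := hτ j
      have h2 : η' ≤ ε / 8 := min_le_right _ _
      have h3 : |θ j| < η' / 2 := this
      linarith
    have hb0 := hb (Fin.natAdd N 0)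
    have hb1 := hb (Fin.natAdd N 1)
    have hb2 := hb (Fin.natAdd N 2)
    have hb3 := hb (Fin.natAdd N 3)
    simp only [add_sub_cancel_left]
    linarith
  calc dist (F a) P ≤ dist (F a) (F bτ) + dist (F bτ) P := dist_triangle _ _ _
    _ ≤ ε := by linarith

/-- first variation: the inner product with a velocity is the momentum -/
theorem momentumg {N : ℕ} (G : Subgroup (Matrix.unitaryGroup (Fin N) ℂ))
    (hG : IsClosed (matSet G))
    (B : Matrix (Fin N) (Fin N) ℂ →ₗ[ℝ] Matrix (Fin N) (Fin N) ℂ →ₗ[ℝ] ℝ) (hB : IsBiinvariant G B)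
    (u : Matrix (Fin N) (Fin N) ℂ) (hu : u ∈ Matrix.unitaryGroup (Fin N) ℂ)
    (l : Fin N → ℝ) (hl : Xd u l ∈ LieSet G) (q : RS α β) (κ : ℝ)
    (hκ : κ = α * hop q.val.1 + β * hop q.val.2) (hl2 : B (Xd u l) (Xd u l) = 2 + κ ^ 2)
    (F : G → RS α β)
    (hF : ∀ a b, ENNReal.ofReal (dist (F a) (F b)) ≤ dG G B a b)
    (hF2 : ∀ (s : ℝ) (a : G), mt a = NormedSpace.exp (s • Xd u l) → F a = gamg q κ s)
    (x : Fin (N + 4) → ℝ) (hx : x ∈ hull (Fin.append l (frg α β κ))) :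
    B (Xd u l) (Xd u (fun j => x (Fin.castAdd 4 j))) =
      x (Fin.natAdd N 0) + x (Fin.natAdd N 1) + hop q.val.1 * x (Fin.natAdd N 2) +
        hop q.val.2 * x (Fin.natAdd N 3) := by
  have hq := q.mem
  have hm := scl_pos α β
  set w : Fin N → ℝ := fun j => x (Fin.castAdd 4 j) with hw
  set M0 := 2 + κ ^ 2 with hM0
  have hM0p : 0 < M0 := by positivity
  set Py := x (Fin.natAdd N 0) + x (Fin.natAdd N 1) + hop q.val.1 * x (Fin.natAdd N 2) +
        hop q.val.2 * x (Fin.natAdd N 3) with hPy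
  have hXw : Xd u w ∈ LieSet G := Xd_mem' G hG u hu l hl (frg α β κ) x hx
  obtain ⟨n, L, e, hL, hLB, he, hbi⟩ := exists_biGrp G hG B hB
  have e0 : e 0 = 1 := (word_basic hbi).1
  -- lower bound
  have key : ∀ r : ℝ, M0 + r * Py ≤ √M0 * √(B (Xd u l + r • Xd u w) (Xd u l + r • Xd u w)) := by
    intro r
    -- the vector
    set z : Fin (N + 4) → ℝ := fun j => 1 * Fin.append l (frg α β κ) j + r * x j with hz
    have hzh : z ∈ hull (Fin.append l (frg α β κ)) :=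
      hull_comb _ _ _ (hull_self _) hx 1 r
    set C := |z (Fin.natAdd N 0)| + |z (Fin.natAdd N 1)| + |z (Fin.natAdd N 2)| + |z (Fin.natAdd N 3)| with hC
    have hC0 : 0 ≤ C := by positivity
    set s : ℝ := 1 / (10 * scl α β * (C + 1)) with hs
    have hs0 : 0 < s := by positivity
    have hsC : s * C ≤ 1 / (10 * scl α β) := by
      rw [hs, div_mul_eq_mul_div, div_le_div_iff₀ (by positivity) (by positivity)]
      have : 0 < 10 * scl α β := by positivity
      nlinarith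
    have hsz : (fun j => s * z j) ∈ hull (Fin.append l (frg α β κ)) := by
      have := hull_comb _ _ _ hzh (hull_self (Fin.append l (frg α β κ))) s 0
      simpa using this
    have hzX : Xd u (fun j => (fun j => s * z j) (Fin.castAdd 4 j)) = s • (Xd u l + r • Xd u w) := by
      rw [(Xd_exp u hu w r).2.1, (Xd_exp u hu l 1).2.2, (Xd_exp u hu _ s).2.1]
      congr 1
      funext j
      simp [hz, hw, Fin.append_left]
    have hsXm := Xd_mem' G hG u hu l hl (frg α β κ) _ hsz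
    obtain ⟨y, hy⟩ := (hL _).1 hsXm
    have hflow := flow_on_hullg G hG B hB u hu l hl q κ F hF hF2 _ hsz (e y) (by
      show mt (e y) = _
      rw [← hy]
      exact he y)
    have hone : F 1 = q := by
      have := hF2 0 1 (by rw [zero_smul, NormedSpace.exp_zero]; rfl)
      rw [this, gamg_zero]
    have h1 : dist (F 1) (F (e y)) ≤ ‖y‖ := by
      have h2 := hF 1 (e y)
      rw [← e0] at h2
      have h3 := h2.trans (hbi.d_exp 0 y)
      rw [zero_sub, norm_neg, ENNReal.ofReal_le_ofReal_iff (norm_nonneg _)] at h3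
      rwa [e0] at h3
    rw [hone, RS.dist_eq, hflow] at h1
    have h4 : ‖y‖ = s * √(B (Xd u l + r • Xd u w) (Xd u l + r • Xd u w)) := by
      have : ‖y‖ ^ 2 = s ^ 2 * B (Xd u l + r • Xd u w) (Xd u l + r • Xd u w) := by
        rw [← real_inner_self_eq_norm_sq, ← hLB, hy, hzX, map_smul, map_smul, LinearMap.smul_apply,
          smul_eq_mul, smul_eq_mul]
        ring
      rw [← Real.sqrt_sq (norm_nonneg y), this, Real.sqrt_mul (sq_nonneg s), Real.sqrt_sq hs0.le]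
    have hS : |s * z (Fin.natAdd N 0)| + |s * z (Fin.natAdd N 1)| + |s * z (Fin.natAdd N 2)| +
        |s * z (Fin.natAdd N 3)| ≤ 1 / (10 * scl α β) := by
      rw [abs_mul, abs_mul, abs_mul, abs_mul, abs_of_pos hs0]
      calc _ = s * C := by rw [hC]; ring
        _ ≤ 1 / (10 * scl α β) := hsC
    have h5 := dFg_lower α β q.val hq 1 1 _ _ _ _ hS
    have h6 : (1 : ℝ) ^ 2 + 1 ^ 2 + (α * (1 * hop q.val.1) + β * (1 * hop q.val.2)) ^ 2 = M0 := by
      rw [hM0, hκ]; ring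
    rw [h6] at h5
    have h7 : 1 * (s * z (Fin.natAdd N 0)) + 1 * (s * z (Fin.natAdd N 1)) +
        1 * hop q.val.1 * (s * z (Fin.natAdd N 2)) + 1 * hop q.val.2 * (s * z (Fin.natAdd N 3)) =
        s * (M0 + r * Py) := by
      have z0 : z (Fin.natAdd N 0) = 1 + r * x (Fin.natAdd N 0) := by
        simp [hz, Fin.append_right, frg]
      have z1 : z (Fin.natAdd N 1) = 1 + r * x (Fin.natAdd N 1) := by
        simp [hz, Fin.append_right, frg]
      have z2 : z (Fin.natAdd N 2) = α * κ + r * x (Fin.natAdd N 2) := by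
        simp [hz, Fin.append_right, frg]
      have z3 : z (Fin.natAdd N 3) = β * κ + r * x (Fin.natAdd N 3) := by
        simp [hz, Fin.append_right, frg]
      rw [z0, z1, z2, z3, hPy, hM0]
      linear_combination (-s * κ) * hκ
    rw [h7] at h5
    have h8 : s * (M0 + r * Py) ≤ s * (√M0 * √(B (Xd u l + r • Xd u w) (Xd u l + r • Xd u w))) := by
      refine h5.trans ?_
      have h9 : √M0 * dFg α β q.val (Psi (s * z (Fin.natAdd N 0)) (s * z (Fin.natAdd N 1))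
          (s * z (Fin.natAdd N 2)) (s * z (Fin.natAdd N 3)) q.val) ≤ √M0 * ‖y‖ := by
        apply mul_le_mul_of_nonneg_left _ (Real.sqrt_nonneg _)
        exact h1
      refine h9.trans ?_
      rw [h4]
      apply le_of_eq
      ring
    exact le_of_mul_le_mul_left h8 hs0
  -- expand
  have hsymm : B (Xd u w) (Xd u l) = B (Xd u l) (Xd u w) := hB.symm _ hXw _ hl
  have hexp : ∀ r : ℝ, B (Xd u l + r • Xd u w) (Xd u l + r • Xd u w) =
      M0 + 2 * r * B (Xd u l) (Xd u w) + r ^ 2 * B (Xd u w) (Xd u w) := by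
    intro r
    simp only [map_add, map_smul, LinearMap.add_apply, LinearMap.smul_apply, smul_eq_mul]
    rw [hsymm, hl2]
    ring
  have hnn : ∀ r : ℝ, 0 ≤ B (Xd u l + r • Xd u w) (Xd u l + r • Xd u w) := by
    intro r
    have hmem : Xd u l + r • Xd u w ∈ LieSet G :=
      (LieSet_closed_ops G hG).2.2.1 _ hl _ ((LieSet_closed_ops G hG).2.1 r _ hXw)
    by_cases h0 : Xd u l + r • Xd u w = 0
    · rw [h0]; simp
    · exact (hB.pos _ hmem h0).le
  have key2 : ∀ r : ℝ, 0 ≤ M0 + r * Py →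
      2 * r * M0 * (Py - B (Xd u l) (Xd u w)) ≤ r ^ 2 * (M0 * B (Xd u w) (Xd u w) - Py ^ 2) := by
    intro r hr
    have h1 := key r
    have h2 : (M0 + r * Py) ^ 2 ≤ (√M0 * √(B (Xd u l + r • Xd u w) (Xd u l + r • Xd u w))) ^ 2 :=
      pow_le_pow_left₀ hr h1 2
    rw [mul_pow, Real.sq_sqrt hM0p.le, Real.sq_sqrt (hnn r), hexp] at h2
    nlinarith
  set D := M0 * B (Xd u w) (Xd u w) - Py ^ 2 with hD
  set c := Py - B (Xd u l) (Xd u w) with hc
  suffices hc0 : c = 0 by linarith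
  by_contra hne
  -- choose small r of the sign of c
  set r0 : ℝ := min (M0 / (|Py| + 1)) (M0 * |c| / (|D| + 1)) with hr0
  have hcpos : 0 < |c| := abs_pos.2 hne
  have hr0p : 0 < r0 := lt_min (by positivity) (by positivity)
  have hr1 : r0 * (|Py| + 1) ≤ M0 := by
    rw [← le_div_iff₀ (by positivity)]; exact min_le_left _ _
  have hr2 : r0 * (|D| + 1) ≤ M0 * |c| := by
    rw [← le_div_iff₀ (by positivity)]; exact min_le_right _ _
  have hP1 := abs_le.1 (le_refl |Py|)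
  have hD1 := le_abs_self D
  rcases lt_or_gt_of_ne hne with hneg | hpos
  · have hcabs : |c| = -c := abs_of_neg hneg
    have h3 := key2 (-r0) (by nlinarith)
    rw [hcabs] at hr2
    nlinarith [mul_pos hr0p hr0p, mul_pos hr0p (mul_pos hM0p (neg_pos.2 hneg))]
  · have hcabs : |c| = c := abs_of_pos hpos
    have h3 := key2 r0 (by nlinarith)
    rw [hcabs] at hr2
    nlinarith [mul_pos hr0p hr0p, mul_pos hr0p (mul_pos hM0p hpos)]

theorem not_submetryg (hα : α ≠ 0) (hirr : Irrational (β / α)) {N : ℕ}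
    (G : Subgroup (Matrix.unitaryGroup (Fin N) ℂ))
    (hG : IsClosed (matSet G)) (hGc : IsCompact (matSet G))
    (B : Matrix (Fin N) (Fin N) ℂ →ₗ[ℝ] Matrix (Fin N) (Fin N) ℂ →ₗ[ℝ] ℝ) (hB : IsBiinvariant G B)
    (f : G → RS α β) (hsurj : Function.Surjective f)
    (hlip : ∀ x y, ENNReal.ofReal (dist (f x) (f y)) ≤ dG G B x y)
    (hsub : ∀ (x : G) (q : RS α β) (ε : ℝ), 0 < ε →
      ∃ y, f y = q ∧ dG G B x y < ENNReal.ofReal (dist (f x) q + ε)) : False := by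
  obtain ⟨u, hu, huk⟩ := exists_k G hG hGc B hB
  -- a sign
  obtain ⟨s, hs1, hs2, hs3⟩ : ∃ s : ℝ, |s| ≤ 1 ∧ 0 ≤ s * (α * β) ∧ s ^ 2 = 1 := by
    rcases le_total 0 (α * β) with h | h
    · exact ⟨1, by simp, by linarith, by norm_num⟩
    · exact ⟨-1, by simp, by linarith, by norm_num⟩
  have hs0 : s ≠ 0 := by
    intro h; rw [h] at hs3; norm_num at hs3
  -- points
  have hpt : ∀ t : ℝ, t ∈ Ioo (0 : ℝ) 1 →
      ∃ q : RS α β, hop q.val.1 = t ∧ hop q.val.2 = s * t ^ 2 := by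
    intro t ht
    have h1 : |t| ≤ 1 := by rw [abs_of_pos ht.1]; exact ht.2.le
    have h2 : |s * t ^ 2| ≤ 1 := by
      rw [abs_mul, abs_of_nonneg (sq_nonneg t)]
      have h3 : t ^ 2 ≤ 1 := by nlinarith [ht.1, ht.2]
      calc |s| * t ^ 2 ≤ 1 * 1 := mul_le_mul hs1 h3 (sq_nonneg t) zero_le_one
        _ = 1 := one_mul 1
    obtain ⟨p₁, hp1, hp1'⟩ := (hop_abs_le 1 (by simp)).2 t h1
    obtain ⟨p₂, hp2, hp2'⟩ := (hop_abs_le 1 (by simp)).2 (s * t ^ 2) h2
    exact ⟨RS.mk (p₁, p₂) ⟨hp1, hp2⟩, hp1', hp2'⟩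
  set K : ℝ → ℝ := fun t => α * t + β * (s * t ^ 2) with hK
  have hdata : ∀ t : ℝ, t ∈ Ioo (0 : ℝ) 1 → ∃ l : Fin N → ℝ, Xd u l ∈ LieSet G ∧
      ∀ x ∈ hull (Fin.append l (frg α β (K t))),
        B (Xd u l) (Xd u (fun j => x (Fin.castAdd 4 j))) =
          x (Fin.natAdd N 0) + x (Fin.natAdd N 1) + t * x (Fin.natAdd N 2) +
            s * t ^ 2 * x (Fin.natAdd N 3) := by
    intro t ht
    obtain ⟨q, hq1, hq2⟩ := hpt t ht
    obtain ⟨l, hl, hl2, F, hF, hF2⟩ := datag G hG B hB f hsurj hlip hsub u huk q (K t)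
      (by rw [hq1, hq2])
    refine ⟨l, hl, ?_⟩
    intro x hx
    have := momentumg G hG B hB u hu l hl q (K t) (by rw [hq1, hq2]) hl2 F hF hF2 x hx
    rw [hq1, hq2] at this
    exact this
  classical
  let lt : ℝ → Fin N → ℝ := fun t => if h : t ∈ Ioo (0 : ℝ) 1 then (hdata t h).choose else 0
  have hlt : ∀ t, t ∈ Ioo (0 : ℝ) 1 → Xd u (lt t) ∈ LieSet G ∧
      ∀ x ∈ hull (Fin.append (lt t) (frg α β (K t))),
        B (Xd u (lt t)) (Xd u (fun j => x (Fin.castAdd 4 j))) =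
          x (Fin.natAdd N 0) + x (Fin.natAdd N 1) + t * x (Fin.natAdd N 2) +
            s * t ^ 2 * x (Fin.natAdd N 3) := by
    intro t ht
    have : lt t = (hdata t ht).choose := dif_pos ht
    rw [this]
    exact (hdata t ht).choose_spec
  obtain ⟨t₁, t₂, t₃, h1, h2, h3, h12, h23, hr12, hr23⟩ :=
    three_share (N + 4) (fun t => Fin.append (lt t) (frg α β (K t)))
  set V₁ := Fin.append (lt t₁) (frg α β (K t₁)) with hV1
  set V₂ := Fin.append (lt t₂) (frg α β (K t₂)) with hV2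
  set V₃ := Fin.append (lt t₃) (frg α β (K t₃)) with hV3
  have hh2 : hull V₂ = hull V₁ := by
    ext x
    exact ⟨fun h m hm => h m ((hr12 m).1 hm), fun h m hm => h m ((hr12 m).2 hm)⟩
  have hh3 : hull V₃ = hull V₂ := by
    ext x
    exact ⟨fun h m hm => h m ((hr23 m).1 hm), fun h m hm => h m ((hr23 m).2 hm)⟩
  -- coefficients
  have hd12 : t₁ - t₂ ≠ 0 := by intro h; linarith
  have hd13 : t₁ - t₃ ≠ 0 := by intro h; linarith
  have hd23 : t₂ - t₃ ≠ 0 := by intro h; linarith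
  obtain ⟨a₁, a₂, a₃, ha0, ha1, ha2'⟩ : ∃ a₁ a₂ a₃ : ℝ, a₁ + a₂ + a₃ = 0 ∧
      a₁ * t₁ + a₂ * t₂ + a₃ * t₃ = β ∧ a₁ * t₁ ^ 2 + a₂ * t₂ ^ 2 + a₃ * t₃ ^ 2 = -(s * α) := by
    refine ⟨(-(s * α) - β * (t₂ + t₃)) / ((t₁ - t₂) * (t₁ - t₃)),
      -((-(s * α) - β * (t₁ + t₃)) / ((t₁ - t₂) * (t₂ - t₃))),
      (-(s * α) - β * (t₁ + t₂)) / ((t₁ - t₃) * (t₂ - t₃)), ?_, ?_, ?_⟩ <;> field_simp <;> ring
  have ha2 : s * (a₁ * t₁ ^ 2 + a₂ * t₂ ^ 2 + a₃ * t₃ ^ 2) = -α := by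
    rw [ha2']
    linear_combination (-α) * hs3
  -- the vector Y
  set z : Fin (N + 4) → ℝ := fun j => 1 * (a₁ * V₁ j + a₂ * V₂ j) + a₃ * V₃ j with hz
  have hm1 : V₁ ∈ hull V₁ := hull_self _
  have hm2 : V₂ ∈ hull V₁ := by rw [← hh2]; exact hull_self _
  have hm3 : V₃ ∈ hull V₁ := by rw [← hh2, ← hh3]; exact hull_self _
  have hzm : z ∈ hull V₁ := hull_comb _ _ _ (hull_comb _ _ _ hm1 hm2 a₁ a₂) hm3 1 a₃
  have hzX : Xd u (fun j => z (Fin.castAdd 4 j)) =
      a₁ • Xd u (lt t₁) + a₂ • Xd u (lt t₂) + a₃ • Xd u (lt t₃) := by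
    rw [(Xd_exp u hu _ a₁).2.1, (Xd_exp u hu _ a₂).2.1, (Xd_exp u hu _ a₃).2.1,
      (Xd_exp u hu _ 1).2.2, (Xd_exp u hu _ 1).2.2]
    congr 1
    funext j
    simp [hz, hV1, hV2, hV3, Fin.append_left]
  have hYB : ∀ x ∈ hull V₁, B (Xd u (fun j => z (Fin.castAdd 4 j)))
      (Xd u (fun j => x (Fin.castAdd 4 j))) =
        β * x (Fin.natAdd N 2) - α * x (Fin.natAdd N 3) := by
    intro x hx
    have e1 := (hlt t₁ h1).2 x hx
    have e2 := (hlt t₂ h2).2 x (by rw [← hV2, hh2]; exact hx)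
    have e3 := (hlt t₃ h3).2 x (by rw [← hV3, hh3, hh2]; exact hx)
    rw [hzX]
    simp only [map_add, map_smul, LinearMap.add_apply, LinearMap.smul_apply, smul_eq_mul]
    rw [e1, e2, e3]
    linear_combination (x (Fin.natAdd N 0) + x (Fin.natAdd N 1)) * ha0 + x (Fin.natAdd N 2) * ha1 +
      x (Fin.natAdd N 3) * ha2
  have hKz : a₁ * K t₁ + a₂ * K t₂ + a₃ * K t₃ = 0 := by
    simp only [hK]
    linear_combination α * ha1 + β * ha2
  have hz2 : z (Fin.natAdd N 2) = 0 := by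
    have : z (Fin.natAdd N 2) = α * (a₁ * K t₁ + a₂ * K t₂ + a₃ * K t₃) := by
      simp [hz, hV1, hV2, hV3, Fin.append_right, frg]
      ring
    rw [this, hKz, mul_zero]
  have hz3 : z (Fin.natAdd N 3) = 0 := by
    have : z (Fin.natAdd N 3) = β * (a₁ * K t₁ + a₂ * K t₂ + a₃ * K t₃) := by
      simp [hz, hV1, hV2, hV3, Fin.append_right, frg]
      ring
    rw [this, hKz, mul_zero]
  have hXz : Xd u (fun j => z (Fin.castAdd 4 j)) ∈ LieSet G :=
    Xd_mem' G hG u hu (lt t₁) (hlt t₁ h1).1 _ z hzm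
  have hYY := hYB z hzm
  rw [hz2, hz3] at hYY
  have hY0 : Xd u (fun j => z (Fin.castAdd 4 j)) = 0 := by
    by_contra hne
    have := hB.pos _ hXz hne
    rw [hYY] at this
    simp at this
  -- the rational vector
  have hκ : V₁ (Fin.natAdd N 2) ≠ 0 := by
    have : V₁ (Fin.natAdd N 2) = α ^ 2 * t₁ + s * (α * β) * t₁ ^ 2 := by
      simp [hV1, Fin.append_right, frg, hK]
      ring
    rw [this]
    have h0 := h1.1
    have h4 : 0 < α ^ 2 := by positivity
    have h5 : 0 < α ^ 2 * t₁ := mul_pos h4 h0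
    have h6 : 0 ≤ s * (α * β) * t₁ ^ 2 := mul_nonneg hs2 (sq_nonneg _)
    exact (by linarith : 0 < α ^ 2 * t₁ + s * (α * β) * t₁ ^ 2).ne'
  obtain ⟨x, hx0, hx⟩ := rational_vector (N + 4) V₁ (Fin.natAdd N 2) hκ
  have hfin := hYB (fun j => (x j : ℝ)) hx
  rw [hY0] at hfin
  simp only [map_zero, LinearMap.zero_apply] at hfin
  apply hirr
  refine ⟨x (Fin.natAdd N 3) / x (Fin.natAdd N 2), ?_⟩
  have hx0' : (x (Fin.natAdd N 2) : ℝ) ≠ 0 := by exact_mod_cast hx0
  push_cast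
  rw [div_eq_div_iff hx0' hα]
  linarith

theorem not_biquotientg (hα : α ≠ 0) (hirr : Irrational (β / α)) {N : ℕ}
    (G : Subgroup (Matrix.unitaryGroup (Fin N) ℂ))
    (hG' : IsClosed (G : Set (Matrix.unitaryGroup (Fin N) ℂ)))
    (B : Matrix (Fin N) (Fin N) ℂ →ₗ[ℝ] Matrix (Fin N) (Fin N) ℂ →ₗ[ℝ] ℝ) (hB : IsBiinvariant G B)
    (Γ : Subgroup (Equiv.Perm G)) : ¬ IsQuotient (dG G B) Γ (dMg α β) := by
  rintro ⟨π, hsurj, hd⟩
  obtain ⟨hG, hGc⟩ := isClosed_matSet G hG'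
  obtain ⟨n, L, e, hL, hLB, he, hbi⟩ := exists_biGrp G hG B hB
  have hself := (word_basic hbi).2.1
  let f : G → RS α β := π
  have hfd : ∀ x y, ENNReal.ofReal (dist (f x) (f y)) = ⨅ γ ∈ Γ, dG G B x (γ y) := by
    intro x y
    have h1 : ENNReal.ofReal (dist (f x) (f y)) = dMg α β (π x) (π y) := by
      rw [dMg_eq, RS.dist_eq]
      rfl
    rw [h1, hd]
  have hfs : Function.Surjective f := hsurj
  refine not_submetryg hα hirr G hG hGc B hB f hfs ?_ ?_
  · intro x y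
    rw [hfd]
    exact iInf₂_le_of_le 1 Γ.one_mem le_rfl
  · intro x q ε hε
    obtain ⟨y, hy⟩ := hfs q
    have h1 : ENNReal.ofReal (dist (f x) (f y)) < ENNReal.ofReal (dist (f x) q + ε) := by
      rw [hy]
      apply (ENNReal.ofReal_lt_ofReal_iff _).2
      · linarith
      · linarith [dist_nonneg (x := f x) (y := q)]
    rw [hfd] at h1
    obtain ⟨γ, hγ⟩ := iInf_lt_iff.1 h1
    obtain ⟨hγΓ, hγ2⟩ := iInf_lt_iff.1 hγ
    refine ⟨γ y, ?_, hγ2⟩
    have h2 : ENNReal.ofReal (dist (f (γ y)) (f y)) = 0 := by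
      rw [hfd, ← nonpos_iff_eq_zero]
      exact iInf₂_le_of_le γ hγΓ (by rw [hself])
    rw [ENNReal.ofReal_eq_zero] at h2
    rw [dist_le_zero.1 h2]
    exact hy

end Pool.Agent.Y503.HG
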