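import Pool.Agent.Helper831.HQ.Main
import Pool.Agent.Y503.HS.Sub

/-!
# The distance of `S³ × S³` for a line of arbitrary slope

This generalises the files `P_dF_*` of `Pool/Agent/Helper831/HQ`, which treat the slopes `1, √2`.
-/

open scoped Quaternion Matrix.Norms.L2Operator ENNReal
open Set MeasureTheory

noncomputable section

namespace Pool.Agent.Y503.HG

open HQ Pool.Agent.Y503.HS

/-- The Riemannian distance of `S³ × S³` with the left invariant metric `QF α β`. -/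
def dMg (α β : ℝ) (p q : S33) : ℝ≥0∞ := riemDist S33 (QF α β) (p : ℍ × ℍ) (q : ℍ × ℍ)

/-- explicit formula for the distance of `S³ × S³` -/
def dFg (α β : ℝ) (p q : ℍ × ℍ) : ℝ :=
  ⨅ θ : ℝ, √(ang p.1 (q.1 * E (α * θ)) ^ 2 + ang p.2 (q.2 * E (β * θ)) ^ 2 + θ ^ 2)

theorem dFg_bdd (α β : ℝ) (p q : ℍ × ℍ) : BddBelow (Set.range fun θ : ℝ =>
    √(ang p.1 (q.1 * E (α * θ)) ^ 2 + ang p.2 (q.2 * E (β * θ)) ^ 2 + θ ^ 2)) :=
  ⟨0, by rintro _ ⟨θ, rfl⟩; exact Real.sqrt_nonneg _⟩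

theorem dFg_le (α β : ℝ) (p q : ℍ × ℍ) (θ : ℝ) : dFg α β p q ≤
    √(ang p.1 (q.1 * E (α * θ)) ^ 2 + ang p.2 (q.2 * E (β * θ)) ^ 2 + θ ^ 2) :=
  ciInf_le (dFg_bdd α β p q) θ

theorem dFg_Psi (α β a b c d : ℝ) (p q : ℍ × ℍ) (hp : p ∈ S33) (hq : q ∈ S33) :
    dFg α β (Psi a b c d p) (Psi a b c d q) = dFg α β p q ∧ Psi a b c d p ∈ S33 ∧
    (∀ a' b' c' d' : ℝ, Psi a b c d (Psi a' b' c' d' p) = Psi (a + a') (b + b') (c + c') (d + d') p) ∧
    dFg α β p (Psi a b c d p) ≤ |a| + |b| + |c| + |d| := by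
  obtain ⟨hadd, hn, h0, -⟩ := E_basic
  refine ⟨?_, ?_, ?_, ?_⟩
  · unfold dFg Psi
    simp only [dF_Psi_aux]
  · refine ⟨?_, ?_⟩
    · show ‖E a * p.1 * E c‖ = 1
      rw [norm_mul, norm_mul, hn, hn, hp.1, one_mul, one_mul]
    · show ‖E b * p.2 * E d‖ = 1
      rw [norm_mul, norm_mul, hn, hn, hp.2, one_mul, one_mul]
  · intro a' b' c' d'
    unfold Psi
    simp only
    rw [hadd a a', hadd b b', add_comm c c', add_comm d d', hadd c' c, hadd d' d]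
    simp only [mul_assoc]
  · refine (dFg_le α β _ _ 0).trans ?_
    have hA := (ang_upper p.1 hp.1 a c).1
    have hB := (ang_upper p.2 hp.2 b d).1
    have hA0 : 0 ≤ ang p.1 (E a * p.1 * E c) := InnerProductGeometry.angle_nonneg _ _
    have hB0 : 0 ≤ ang p.2 (E b * p.2 * E d) := InnerProductGeometry.angle_nonneg _ _
    show √(ang p.1 ((E a * p.1 * E c) * E (α * 0)) ^ 2 + ang p.2 ((E b * p.2 * E d) * E (β * 0)) ^ 2 +
          0 ^ 2) ≤ _
    rw [mul_zero, mul_zero, h0, mul_one, mul_one]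
    refine (Real.sqrt_le_sqrt (y := (ang p.1 (E a * p.1 * E c) + ang p.2 (E b * p.2 * E d)) ^ 2)
      ?_).trans ?_
    · nlinarith [mul_nonneg hA0 hB0]
    · rw [Real.sqrt_sq (add_nonneg hA0 hB0)]
      linarith

theorem dFg_geod (α β : ℝ) (q : ℍ × ℍ) (hq : q ∈ S33) (w₁ w₂ κ t : ℝ) :
    dFg α β q (Psi (t * w₁) (t * w₂) (t * (α * κ)) (t * (β * κ)) q) ≤
      |t| * √(w₁ ^ 2 + w₂ ^ 2 + κ ^ 2) := by
  obtain ⟨hadd, -, hE0, -⟩ := E_basic
  refine (dFg_le α β _ _ (-(t * κ))).trans ?_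
  have e1 : (Psi (t * w₁) (t * w₂) (t * (α * κ)) (t * (β * κ)) q).1 * E (α * -(t * κ)) =
      E (t * w₁) * q.1 := by
    show E (t * w₁) * q.1 * E (t * (α * κ)) * E (α * -(t * κ)) = E (t * w₁) * q.1
    rw [mul_assoc _ (E (t * (α * κ))), ← hadd,
      show t * (α * κ) + α * -(t * κ) = 0 by ring, hE0, mul_one]
  have e2 : (Psi (t * w₁) (t * w₂) (t * (α * κ)) (t * (β * κ)) q).2 * E (β * -(t * κ)) =
      E (t * w₂) * q.2 := by
    show E (t * w₂) * q.2 * E (t * (β * κ)) * E (β * -(t * κ)) = E (t * w₂) * q.2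
    rw [mul_assoc _ (E (t * (β * κ))), ← hadd,
      show t * (β * κ) + β * -(t * κ) = 0 by ring, hE0, mul_one]
  rw [e1, e2]
  have a1 : ang q.1 (E (t * w₁) * q.1) ≤ |t * w₁| := (ang_upper q.1 hq.1 (t * w₁) 0).2
  have a2 : ang q.2 (E (t * w₂) * q.2) ≤ |t * w₂| := (ang_upper q.2 hq.2 (t * w₂) 0).2
  have n1 : 0 ≤ ang q.1 (E (t * w₁) * q.1) := InnerProductGeometry.angle_nonneg _ _
  have n2 : 0 ≤ ang q.2 (E (t * w₂) * q.2) := InnerProductGeometry.angle_nonneg _ _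
  have b1 : ang q.1 (E (t * w₁) * q.1) ^ 2 ≤ (t * w₁) ^ 2 := by
    rw [← sq_abs (t * w₁)]
    exact pow_le_pow_left₀ n1 a1 2
  have b2 : ang q.2 (E (t * w₂) * q.2) ^ 2 ≤ (t * w₂) ^ 2 := by
    rw [← sq_abs (t * w₂)]
    exact pow_le_pow_left₀ n2 a2 2
  have e3 : |t| * √(w₁ ^ 2 + w₂ ^ 2 + κ ^ 2) = √((t * w₁) ^ 2 + (t * w₂) ^ 2 + (-(t * κ)) ^ 2) := by
    rw [← Real.sqrt_sq_eq_abs, ← Real.sqrt_mul (sq_nonneg t)]
    congr 1
    ring
  rw [e3]
  apply Real.sqrt_le_sqrt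
  linarith

theorem dFg_metric (α β : ℝ) (p q r : ℍ × ℍ) (hp : p ∈ S33) (hq : q ∈ S33) (hr : r ∈ S33) :
    0 ≤ dFg α β p q ∧ dFg α β p p = 0 ∧ dFg α β p q = dFg α β q p ∧
    dFg α β p r ≤ dFg α β p q + dFg α β q r ∧
    ‖p.1 - q.1‖ ≤ (1 + |α|) * dFg α β p q ∧ ‖p.2 - q.2‖ ≤ (1 + |β|) * dFg α β p q := by
  obtain ⟨hadd, hn, h0, -, -, -, -, hE⟩ := E_basic
  have hp0 : p.1 ≠ 0 := by
    intro h; have := hp.1; rw [h] at this; simp at this
  have hp0' : p.2 ≠ 0 := by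
    intro h; have := hp.2; rw [h] at this; simp at this
  have hnn : ∀ p q : ℍ × ℍ, 0 ≤ dFg α β p q := fun p q => Real.iInf_nonneg fun θ => Real.sqrt_nonneg _
  refine ⟨hnn p q, ?_, ?_, ?_, ?_, ?_⟩
  · apply le_antisymm _ (hnn p p)
    refine (dFg_le α β p p 0).trans ?_
    have e1 : ang p.1 (p.1 * E (α * 0)) = 0 := by
      rw [mul_zero, h0, mul_one]; exact InnerProductGeometry.angle_self hp0
    have e2 : ang p.2 (p.2 * E (β * 0)) = 0 := by
      rw [mul_zero, h0, mul_one]; exact InnerProductGeometry.angle_self hp0'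
    rw [e1, e2]
    simp
  · unfold dFg
    rw [← (Equiv.neg ℝ).iInf_comp]
    congr 1
    funext θ
    simp only [Equiv.neg_apply]
    rw [ang_flip p.1 q.1, ang_flip p.2 q.2, mul_neg, mul_neg, neg_neg, neg_neg, neg_sq]
  · have key : ∀ θ₁ θ₂ : ℝ, dFg α β p r ≤
        √(ang p.1 (q.1 * E (α * θ₁)) ^ 2 + ang p.2 (q.2 * E (β * θ₁)) ^ 2 + θ₁ ^ 2) +
        √(ang q.1 (r.1 * E (α * θ₂)) ^ 2 + ang q.2 (r.2 * E (β * θ₂)) ^ 2 + θ₂ ^ 2) := by
      intro θ₁ θ₂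
      refine (dFg_le α β p r (θ₁ + θ₂)).trans ?_
      apply mink3
      · exact InnerProductGeometry.angle_nonneg _ _
      · exact InnerProductGeometry.angle_nonneg _ _
      · rw [mul_add]; exact ang_tri _ _ _ _ _
      · rw [mul_add]; exact ang_tri _ _ _ _ _
    have k2 : ∀ θ₁ : ℝ, dFg α β p r -
        √(ang p.1 (q.1 * E (α * θ₁)) ^ 2 + ang p.2 (q.2 * E (β * θ₁)) ^ 2 + θ₁ ^ 2) ≤ dFg α β q r := by
      intro θ₁
      apply le_ciInf
      intro θ₂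
      linarith [key θ₁ θ₂]
    have k3 : dFg α β p r - dFg α β q r ≤ dFg α β p q := by
      apply le_ciInf
      intro θ₁
      linarith [k2 θ₁]
    linarith
  · have hA : (0 : ℝ) < 1 + |α| := by positivity
    have : ∀ θ : ℝ, ‖p.1 - q.1‖ / (1 + |α|) ≤
        √(ang p.1 (q.1 * E (α * θ)) ^ 2 + ang p.2 (q.2 * E (β * θ)) ^ 2 + θ ^ 2) := by
      intro θ
      have h1 := chord_aux p.1 q.1 hp.1 hq.1 (α * θ)
      have h2 : ang p.1 (q.1 * E (α * θ)) ≤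
          √(ang p.1 (q.1 * E (α * θ)) ^ 2 + ang p.2 (q.2 * E (β * θ)) ^ 2 + θ ^ 2) := by
        apply Real.le_sqrt_of_sq_le; nlinarith [sq_nonneg (ang p.2 (q.2 * E (β * θ))), sq_nonneg θ]
      have h3 : |θ| ≤
          √(ang p.1 (q.1 * E (α * θ)) ^ 2 + ang p.2 (q.2 * E (β * θ)) ^ 2 + θ ^ 2) := by
        apply Real.le_sqrt_of_sq_le; rw [sq_abs]
        nlinarith [sq_nonneg (ang p.2 (q.2 * E (β * θ))), sq_nonneg (ang p.1 (q.1 * E (α * θ)))]
      rw [abs_mul] at h1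
      rw [div_le_iff₀ hA]
      have h5 := mul_le_mul_of_nonneg_left h3 (abs_nonneg α)
      linarith
    have : ‖p.1 - q.1‖ / (1 + |α|) ≤ dFg α β p q := le_ciInf this
    rw [div_le_iff₀ hA] at this
    linarith
  · have hA : (0 : ℝ) < 1 + |β| := by positivity
    have : ∀ θ : ℝ, ‖p.2 - q.2‖ / (1 + |β|) ≤
        √(ang p.1 (q.1 * E (α * θ)) ^ 2 + ang p.2 (q.2 * E (β * θ)) ^ 2 + θ ^ 2) := by
      intro θ
      have h1 := chord_aux p.2 q.2 hp.2 hq.2 (β * θ)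
      have h2 : ang p.2 (q.2 * E (β * θ)) ≤
          √(ang p.1 (q.1 * E (α * θ)) ^ 2 + ang p.2 (q.2 * E (β * θ)) ^ 2 + θ ^ 2) := by
        apply Real.le_sqrt_of_sq_le; nlinarith [sq_nonneg (ang p.1 (q.1 * E (α * θ))), sq_nonneg θ]
      have h3 : |θ| ≤
          √(ang p.1 (q.1 * E (α * θ)) ^ 2 + ang p.2 (q.2 * E (β * θ)) ^ 2 + θ ^ 2) := by
        apply Real.le_sqrt_of_sq_le; rw [sq_abs]
        nlinarith [sq_nonneg (ang p.2 (q.2 * E (β * θ))), sq_nonneg (ang p.1 (q.1 * E (α * θ)))]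
      rw [abs_mul] at h1
      rw [div_le_iff₀ hA]
      have h5 := mul_le_mul_of_nonneg_left h3 (abs_nonneg β)
      linarith
    have : ‖p.2 - q.2‖ / (1 + |β|) ≤ dFg α β p q := le_ciInf this
    rw [div_le_iff₀ hA] at this
    linarith

/-- the scale attached to the slopes -/
def scl (α β : ℝ) : ℝ := 1 + |α| + |β|

theorem scl_pos (α β : ℝ) : 0 < scl α β := by unfold scl; positivity

theorem one_le_scl (α β : ℝ) : 1 ≤ scl α β := by
  unfold scl; linarith [abs_nonneg α, abs_nonneg β]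

theorem dFg_lower (α β : ℝ) (q : ℍ × ℍ) (hq : q ∈ S33) (w₁ w₂ a b c d : ℝ)
    (hS : |a| + |b| + |c| + |d| ≤ 1 / (10 * scl α β)) :
    w₁ * a + w₂ * b + w₁ * hop q.1 * c + w₂ * hop q.2 * d ≤
      √(w₁ ^ 2 + w₂ ^ 2 + (α * (w₁ * hop q.1) + β * (w₂ * hop q.2)) ^ 2) *
        dFg α β q (Psi a b c d q) := by
  obtain ⟨hq1, hq2⟩ := hq
  set h1 := hop q.1 with hh1
  set h2 := hop q.2 with hh2
  set κ := α * (w₁ * h1) + β * (w₂ * h2) with hκ
  set N := √(w₁ ^ 2 + w₂ ^ 2 + κ ^ 2) with hN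
  have hN0 : 0 ≤ N := Real.sqrt_nonneg _
  have hsum0 : 0 ≤ w₁ ^ 2 + w₂ ^ 2 + κ ^ 2 := by positivity
  have hNsq : N ^ 2 = w₁ ^ 2 + w₂ ^ 2 + κ ^ 2 := Real.sq_sqrt hsum0
  have hw1 : |w₁| ≤ N := by
    apply abs_le_of_sq_le_sq _ hN0
    rw [hNsq]; nlinarith [sq_nonneg w₂, sq_nonneg κ]
  have hw2 : |w₂| ≤ N := by
    apply abs_le_of_sq_le_sq _ hN0
    rw [hNsq]; nlinarith [sq_nonneg w₁, sq_nonneg κ]
  have hb1 : |h1| ≤ 1 := (hop_abs_le q.1 hq1).1
  have hb2 : |h2| ≤ 1 := (hop_abs_le q.2 hq2).1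
  have hpi : (3 : ℝ) < Real.pi := Real.pi_gt_three
  have ha0 := abs_nonneg a
  have hb0 := abs_nonneg b
  have hc0 := abs_nonneg c
  have hd0 := abs_nonneg d
  have hm := scl_pos α β
  have hm1 := one_le_scl α β
  have hS1 : |a| + |b| + |c| + |d| ≤ 1 / 10 := by
    refine hS.trans ?_
    apply div_le_div_of_nonneg_left zero_le_one (by norm_num)
    linarith
  have hS2 : |a| + |b| + |c| + |d| ≤ 1 / scl α β := by
    refine hS.trans ?_
    apply div_le_div_of_nonneg_left zero_le_one hm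
    linarith
  have hαm : |α| ≤ scl α β := by unfold scl; linarith [abs_nonneg β]
  have hβm : |β| ≤ scl α β := by unfold scl; linarith [abs_nonneg α]
  unfold dFg
  rw [Real.mul_iInf_of_nonneg hN0]
  apply le_ciInf
  intro θ
  simp only [Psi]
  have e1 : E a * q.1 * E c * E (α * θ) = E a * q.1 * E (c + α * θ) := by
    rw [mul_assoc _ (E c), ← E_basic.1]
  have e2 : E b * q.2 * E d * E (β * θ) = E b * q.2 * E (d + β * θ) := by
    rw [mul_assoc _ (E d), ← E_basic.1]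
  rw [e1, e2]
  by_cases hθ : |θ| ≤ 1 / scl α β
  · have hθ1 : ∀ γ : ℝ, |γ| ≤ scl α β → |γ * θ| ≤ 1 := by
      intro γ hγ
      rw [abs_mul]
      calc |γ| * |θ| ≤ scl α β * (1 / scl α β) := mul_le_mul hγ hθ (abs_nonneg _) hm.le
        _ = 1 := mul_one_div_cancel hm.ne'
    have k1 : |a| + |c + α * θ| ≤ Real.pi / 2 := by
      have := abs_add_le c (α * θ)
      have := hθ1 α hαm
      linarith
    have k2 : |b| + |d + β * θ| ≤ Real.pi / 2 := by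
      have := abs_add_le d (β * θ)
      have := hθ1 β hβm
      linarith
    have j1 := ang_jensen q.1 hq1 a (c + α * θ) k1
    have j2 := ang_jensen q.2 hq2 b (d + β * θ) k2
    rw [← hh1] at j1
    rw [← hh2] at j2
    set x := a + h1 * (c + α * θ) with hx
    set y := b + h2 * (d + β * θ) with hy
    have m1 : x ^ 2 ≤ ang q.1 (E a * q.1 * E (c + α * θ)) ^ 2 := by
      rw [← sq_abs x]
      exact pow_le_pow_left₀ (abs_nonneg _) j1 2
    have m2 : y ^ 2 ≤ ang q.2 (E b * q.2 * E (d + β * θ)) ^ 2 := by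
      rw [← sq_abs y]
      exact pow_le_pow_left₀ (abs_nonneg _) j2 2
    have hL : w₁ * a + w₂ * b + w₁ * h1 * c + w₂ * h2 * d = w₁ * x + w₂ * y - κ * θ := by
      rw [hx, hy, hκ]; ring
    rw [hL]
    have cs : w₁ * x + w₂ * y - κ * θ ≤ N * √(x ^ 2 + y ^ 2 + θ ^ 2) := by
      rw [hN, ← Real.sqrt_mul hsum0]
      exact Real.le_sqrt_of_sq_le (cs_aux _ _ _ _ _ _)
    refine cs.trans (mul_le_mul_of_nonneg_left ?_ hN0)
    apply Real.sqrt_le_sqrt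
    linarith
  · push Not at hθ
    have t1 : w₁ * a ≤ N * |a| :=
      (le_abs_self _).trans (by rw [abs_mul]; exact mul_le_mul_of_nonneg_right hw1 ha0)
    have t2 : w₂ * b ≤ N * |b| :=
      (le_abs_self _).trans (by rw [abs_mul]; exact mul_le_mul_of_nonneg_right hw2 hb0)
    have t3 : w₁ * h1 * c ≤ N * |c| := by
      refine (le_abs_self _).trans ?_
      rw [abs_mul, abs_mul]
      refine mul_le_mul_of_nonneg_right ?_ hc0
      calc |w₁| * |h1| ≤ N * 1 := mul_le_mul hw1 hb1 (abs_nonneg _) hN0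
        _ = N := mul_one N
    have t4 : w₂ * h2 * d ≤ N * |d| := by
      refine (le_abs_self _).trans ?_
      rw [abs_mul, abs_mul]
      refine mul_le_mul_of_nonneg_right ?_ hd0
      calc |w₂| * |h2| ≤ N * 1 := mul_le_mul hw2 hb2 (abs_nonneg _) hN0
        _ = N := mul_one N
    have t5 : w₁ * a + w₂ * b + w₁ * h1 * c + w₂ * h2 * d ≤ N * |θ| := by
      have : N * (|a| + |b| + |c| + |d|) ≤ N * |θ| :=
        mul_le_mul_of_nonneg_left (by linarith) hN0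
      linarith
    refine t5.trans (mul_le_mul_of_nonneg_left ?_ hN0)
    apply Real.le_sqrt_of_sq_le
    rw [sq_abs]
    nlinarith [sq_nonneg (ang q.1 (E a * q.1 * E (c + α * θ))),
      sq_nonneg (ang q.2 (E b * q.2 * E (d + β * θ)))]

end Pool.Agent.Y503.HG
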