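import Pool.Agent.Y503.HG.Met

/-!
# The Riemannian distance and the endpoint map for a line of arbitrary slope
-/

open scoped Quaternion Matrix.Norms.L2Operator ENNReal
open Set MeasureTheory

noncomputable section

namespace Pool.Agent.Y503.HG

open HQ Pool.Agent.Y503.HS

theorem dFg_le_length (α β : ℝ) (p q : ℍ × ℍ) (c c' : ℝ → ℍ × ℍ) (h : IsC1Curve S33 p q c c') :
    dFg α β p q ≤ leftLength (QF α β) c c' := by
  have hd1 : ∀ t ∈ Icc (0:ℝ) 1, HasDerivWithinAt (fun t => (c t).1) (c' t).1 (Icc 0 1) t :=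
    fun t ht => (ContinuousLinearMap.fst ℝ ℍ ℍ).hasFDerivAt.comp_hasDerivWithinAt t (h.deriv t ht)
  have hd2 : ∀ t ∈ Icc (0:ℝ) 1, HasDerivWithinAt (fun t => (c t).2) (c' t).2 (Icc 0 1) t :=
    fun t ht => (ContinuousLinearMap.snd ℝ ℍ ℍ).hasFDerivAt.comp_hasDerivWithinAt t (h.deriv t ht)
  have hc1' : ContinuousOn (fun t => (c' t).1) (Icc 0 1) := continuous_fst.comp_continuousOn h.cont
  have hc2' : ContinuousOn (fun t => (c' t).2) (Icc 0 1) := continuous_snd.comp_continuousOn h.cont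
  have hc1 : ContinuousOn (fun t => (c t).1) (Icc 0 1) := fun t ht => (hd1 t ht).continuousWithinAt
  have hc2 : ContinuousOn (fun t => (c t).2) (Icc 0 1) := fun t ht => (hd2 t ht).continuousWithinAt
  have hu1 : ∀ t ∈ Icc (0:ℝ) 1, ‖(c t).1‖ = 1 := fun t ht => (h.mem t ht).1
  have hu2 : ∀ t ∈ Icc (0:ℝ) 1, ‖(c t).2‖ = 1 := fun t ht => (h.mem t ht).2
  have hM : (0 : ℝ) < 1 + α ^ 2 + β ^ 2 := by positivity
  set M : ℝ := 1 + α ^ 2 + β ^ 2 with hMd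
  set v0 : ℝ → ℝ := fun t =>
    (α * (star (c t).1 * (c' t).1).imI + β * (star (c t).2 * (c' t).2).imI) / M with hv0
  have hv0c : ContinuousOn v0 (Icc 0 1) := by
    have a1 : ContinuousOn (fun t => (star (c t).1 * (c' t).1).imI) (Icc 0 1) :=
      Quaternion.continuous_imI.comp_continuousOn (hc1.star.mul hc1')
    have a2 : ContinuousOn (fun t => (star (c t).2 * (c' t).2).imI) (Icc 0 1) :=
      Quaternion.continuous_imI.comp_continuousOn (hc2.star.mul hc2')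
    exact ((continuousOn_const.mul a1).add (continuousOn_const.mul a2)).div_const M
  set v : ℝ → ℝ := fun t => v0 (projIcc 0 1 zero_le_one t : Icc (0:ℝ) 1) with hv
  have hvc : Continuous v :=
    hv0c.comp_continuous (continuous_subtype_val.comp continuous_projIcc) (fun t => (projIcc _ _ _ t).2)
  have hvv : ∀ t ∈ Icc (0:ℝ) 1, v t = v0 t := by
    intro t ht
    simp only [hv]
    rw [projIcc_of_mem zero_le_one ht]
  set Th : ℝ → ℝ := fun t => ∫ s in (0:ℝ)..t, v s with hTh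
  have hThd : ∀ t, HasDerivAt Th (v t) t := fun t => (hvc.integral_hasStrictDerivAt 0 t).hasDerivAt
  have hTh0 : Th 0 = 0 := by simp [hTh]
  obtain ⟨f1, hf1c, hf1, hA1⟩ := rot_curve (fun t => (c t).1) (fun t => (c' t).1) v Th (-α) hd1 hc1'
    hu1 hvc hThd
  obtain ⟨f2, hf2c, hf2, hA2⟩ := rot_curve (fun t => (c t).2) (fun t => (c' t).2) v Th (-β) hd2 hc2'
    hu2 hvc hThd
  obtain ⟨hE1, hE2, hE3, hE4, hE5, hE6, hE7, hE8⟩ := E_basic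
  simp only [hTh0, mul_zero, hE3, mul_one] at hA1 hA2
  rw [h.source, h.target] at hA1 hA2
  refine (dFg_le α β p q (-Th 1)).trans ?_
  have e1 : -α * Th 1 = α * (-Th 1) := by ring
  have e2 : -β * Th 1 = β * (-Th 1) := by ring
  rw [e1] at hA1
  rw [e2] at hA2
  have hang : ∀ x y : ℍ, 0 ≤ ang x y := fun x y => InnerProductGeometry.angle_nonneg x y
  have hA3 : |(-Th 1)| ≤ ∫ t in (0:ℝ)..1, |v t| := by
    rw [abs_neg]
    exact intervalIntegral.abs_integral_le_integral_abs zero_le_one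
  have hstep : √(ang p.1 (q.1 * E (α * (-Th 1))) ^ 2 + ang p.2 (q.2 * E (β * (-Th 1))) ^ 2 +
      (-Th 1) ^ 2) ≤ √((∫ t in (0:ℝ)..1, f1 t) ^ 2 + (∫ t in (0:ℝ)..1, f2 t) ^ 2 +
        (∫ t in (0:ℝ)..1, |v t|) ^ 2) := by
    apply Real.sqrt_le_sqrt
    have b1 := pow_le_pow_left₀ (hang _ _) hA1 2
    have b2 := pow_le_pow_left₀ (hang _ _) hA2 2
    have b3 := pow_le_pow_left₀ (abs_nonneg _) hA3 2
    rw [sq_abs] at b3
    linarith
  refine hstep.trans ?_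
  refine (minkowski3 f1 f2 (fun t => |v t|) hf1c hf2c hvc.abs.continuousOn).trans ?_
  unfold leftLength
  apply le_of_eq
  apply intervalIntegral.integral_congr
  intro t ht
  rw [Set.uIcc_of_le zero_le_one] at ht
  change √(f1 t ^ 2 + f2 t ^ 2 + |v t| ^ 2) = √(QF α β (star (c t) * c' t))
  congr 1
  have g1 := hf1 t ht
  have g2 := hf2 t ht
  rw [g1, g2, sq_abs, hvv t ht]
  unfold QF
  simp only [Prod.fst_mul, Prod.snd_mul, Prod.fst_star, Prod.snd_star]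
  have hv4 : α * (star (c t).1 * (c' t).1).imI + β * (star (c t).2 * (c' t).2).imI = M * v0 t := by
    simp only [hv0]; field_simp
  rw [← hMd, hv4]
  have h6 : (M * v0 t) ^ 2 / M = M * v0 t ^ 2 := by field_simp
  rw [h6]
  have h7 : M * v0 t ^ 2 = v0 t * (M * v0 t) := by ring
  linear_combination (-2 * v0 t) * hv4 + (v0 t) ^ 2 * hMd

theorem QF_le (α β : ℝ) (W1 W2 : ℍ) (θ : ℝ) :
    QF α β (W1 + (-(α * θ)) • Iq, W2 + (-(β * θ)) • Iq) ≤ ‖W1‖ ^ 2 + ‖W2‖ ^ 2 + θ ^ 2 := by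
  have hM : (0 : ℝ) < 1 + α ^ 2 + β ^ 2 := by positivity
  unfold QF
  rw [riem_le_dF_normsq, riem_le_dF_normsq, riem_le_dF_normsq W1, riem_le_dF_normsq W2]
  simp only [Iq, Quaternion.re_add, Quaternion.imI_add, Quaternion.imJ_add, Quaternion.imK_add,
    Quaternion.re_smul, Quaternion.imI_smul, Quaternion.imJ_smul, Quaternion.imK_smul,
    smul_eq_mul, mul_zero, mul_one, add_zero]
  have key : (W1.re ^ 2 + W1.imI ^ 2 + W1.imJ ^ 2 + W1.imK ^ 2 +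
      (W2.re ^ 2 + W2.imI ^ 2 + W2.imJ ^ 2 + W2.imK ^ 2) + θ ^ 2) -
      (W1.re ^ 2 + (W1.imI + -(α * θ)) ^ 2 + W1.imJ ^ 2 + W1.imK ^ 2 +
      (W2.re ^ 2 + (W2.imI + -(β * θ)) ^ 2 + W2.imJ ^ 2 + W2.imK ^ 2) -
      (α * (W1.imI + -(α * θ)) + β * (W2.imI + -(β * θ))) ^ 2 / (1 + α ^ 2 + β ^ 2)) =
      (α * W1.imI + β * W2.imI + θ) ^ 2 / (1 + α ^ 2 + β ^ 2) := by
    field_simp
    ring
  have h0 : 0 ≤ (α * W1.imI + β * W2.imI + θ) ^ 2 / (1 + α ^ 2 + β ^ 2) := by positivity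
  linarith

theorem riem_le_dFg (α β : ℝ) (p q : ℍ × ℍ) (hp : p ∈ S33) (hq : q ∈ S33) (θ : ℝ) :
    riemDist S33 (QF α β) p q ≤ ENNReal.ofReal
      (√(ang p.1 (q.1 * E (α * θ)) ^ 2 + ang p.2 (q.2 * E (β * θ)) ^ 2 + θ ^ 2)) := by
  have hE := E_basic
  have hq1 : ‖q.1 * E (α * θ)‖ = 1 := by rw [norm_mul, hq.1, hE.2.1, one_mul]
  have hq2 : ‖q.2 * E (β * θ)‖ = 1 := by rw [norm_mul, hq.2, hE.2.1, one_mul]
  obtain ⟨⟨Z1, hZ1, hn1, he1⟩, -⟩ := exists_log p.1 (q.1 * E (α * θ)) hp.1 hq1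
  obtain ⟨⟨Z2, hZ2, hn2, he2⟩, -⟩ := exists_log p.2 (q.2 * E (β * θ)) hp.2 hq2
  have hcurve : IsC1Curve S33 p q
      (fun t => (riem_le_dF_c p.1 Z1 (-(α * θ)) t, riem_le_dF_c p.2 Z2 (-(β * θ)) t))
      (fun t => (riem_le_dF_c' p.1 Z1 (-(α * θ)) t, riem_le_dF_c' p.2 Z2 (-(β * θ)) t)) := by
    refine ⟨?_, ?_, ?_, ?_, ?_⟩
    · intro t _
      exact ⟨riem_le_dF_norm _ _ hp.1 hZ1 _ _, riem_le_dF_norm _ _ hp.2 hZ2 _ _⟩
    · intro t _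
      exact ((riem_le_dF_deriv p.1 Z1 (-(α * θ)) t).prodMk
        (riem_le_dF_deriv p.2 Z2 (-(β * θ)) t)).hasDerivWithinAt
    · exact ((riem_le_dF_cont _ _ _).prodMk (riem_le_dF_cont _ _ _)).continuousOn
    · unfold riem_le_dF_c
      simp only [zero_smul, NormedSpace.exp_zero, mul_one, mul_zero, hE.2.2.1]
    · unfold riem_le_dF_c
      simp only [one_smul, mul_one]
      rw [he1, he2, mul_assoc, mul_assoc, ← hE.1, ← hE.1, add_neg_cancel, add_neg_cancel,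
        hE.2.2.1, mul_one, mul_one]
  refine iInf_le_of_le _ (iInf_le_of_le _ (iInf_le_of_le hcurve (ENNReal.ofReal_le_ofReal ?_)))
  unfold leftLength
  set C : ℝ := √(ang p.1 (q.1 * E (α * θ)) ^ 2 + ang p.2 (q.2 * E (β * θ)) ^ 2 + θ ^ 2) with hC
  have hb := intervalIntegral.norm_integral_le_of_norm_le_const (a := 0) (b := 1) (C := C)
    (f := fun t : ℝ => √(QF α β (star (riem_le_dF_c p.1 Z1 (-(α * θ)) t,
      riem_le_dF_c p.2 Z2 (-(β * θ)) t) *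
      (riem_le_dF_c' p.1 Z1 (-(α * θ)) t, riem_le_dF_c' p.2 Z2 (-(β * θ)) t)))) (by
    intro t _
    rw [Real.norm_of_nonneg (Real.sqrt_nonneg _)]
    apply Real.sqrt_le_sqrt
    obtain ⟨W1, hW1, hW1'⟩ := riem_le_dF_W p.1 Z1 hp.1 hZ1 (-(α * θ)) t
    obtain ⟨W2, hW2, hW2'⟩ := riem_le_dF_W p.2 Z2 hp.2 hZ2 (-(β * θ)) t
    have h1 : star (riem_le_dF_c p.1 Z1 (-(α * θ)) t, riem_le_dF_c p.2 Z2 (-(β * θ)) t) *
        (riem_le_dF_c' p.1 Z1 (-(α * θ)) t, riem_le_dF_c' p.2 Z2 (-(β * θ)) t) =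
        (W1 + (-(α * θ)) • Iq, W2 + (-(β * θ)) • Iq) := by
      rw [← hW1', ← hW2']
      rfl
    rw [h1, ← hn1, ← hn2, ← hW1, ← hW2]
    exact QF_le α β W1 W2 θ)
  rw [sub_zero, abs_one, mul_one] at hb
  exact (Real.le_norm_self _).trans hb

theorem dMg_eq (α β : ℝ) (p q : S33) : dMg α β p q = ENNReal.ofReal (dFg α β p q) := by
  apply le_antisymm
  · apply ENNReal.le_of_forall_pos_le_add
    intro ε hε _
    have hε' : (0 : ℝ) < ε := by exact_mod_cast hε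
    obtain ⟨θ, hθ⟩ := exists_lt_of_ciInf_lt (show dFg α β p q < dFg α β p q + ε by linarith)
    have h1 := riem_le_dFg α β (p : ℍ × ℍ) (q : ℍ × ℍ) p.2 q.2 θ
    calc dMg α β p q ≤ _ := h1
      _ ≤ ENNReal.ofReal (dFg α β p q + ε) := ENNReal.ofReal_le_ofReal hθ.le
      _ ≤ ENNReal.ofReal (dFg α β p q) + ENNReal.ofReal ε := ENNReal.ofReal_add_le
      _ = _ := by rw [ENNReal.ofReal_coe_nnreal]
  · unfold dMg riemDist
    refine le_iInf fun c => le_iInf fun c' => le_iInf fun h => ?_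
    exact ENNReal.ofReal_le_ofReal (dFg_le_length α β _ _ c c' h)

/-- `q` is the endpoint of the control `x` -/
def IsEndg (α β : ℝ) (x : Ctrl) (q : ℍ × ℍ) : Prop :=
  ∃ c₁ c₂ : ℝ → ℍ, IsSol x.1 c₁ ∧ IsSol x.2.1 c₂ ∧
    q = (c₁ 1 * E (-(α * x.2.2)), c₂ 1 * E (-(β * x.2.2)))

theorem endg_dist (α β : ℝ) (x y : Ctrl) (p q : ℍ × ℍ) (hp : IsEndg α β x p)
    (hq : IsEndg α β y q) : dFg α β p q ≤ ‖x - y‖ ∧ p ∈ S33 := by
  obtain ⟨c1, c2, hc1, hc2, rfl⟩ := hp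
  obtain ⟨d1, d2, hd1, hd2, rfl⟩ := hq
  obtain ⟨hE, hEn, -⟩ := E_basic
  have h1 : (1 : ℝ) ∈ Icc (0 : ℝ) 1 := ⟨zero_le_one, le_rfl⟩
  constructor
  · refine (dFg_le α β _ _ (y.2.2 - x.2.2)).trans ?_
    have e1 : d1 1 * E (-(α * y.2.2)) * E (α * (y.2.2 - x.2.2)) = d1 1 * E (-(α * x.2.2)) := by
      rw [mul_assoc, ← hE]
      congr 2
      ring
    have e2 : d2 1 * E (-(β * y.2.2)) * E (β * (y.2.2 - x.2.2)) = d2 1 * E (-(β * x.2.2)) := by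
      rw [mul_assoc, ← hE]
      congr 2
      ring
    rw [e1, e2, (ang_inv _ _ _ (hEn _)).2, (ang_inv _ _ _ (hEn _)).2]
    rw [Real.sqrt_le_left (norm_nonneg _), ctrl_norm_sq]
    have s1 : ang (c1 1) (d1 1) ^ 2 ≤ ip (x - y).1 (x - y).1 := sol_ang x.1 y.1 c1 d1 hc1 hd1
    have s2 : ang (c2 1) (d2 1) ^ 2 ≤ ip (x - y).2.1 (x - y).2.1 :=
      sol_ang x.2.1 y.2.1 c2 d2 hc2 hd2
    have s3 : (x - y).2.2 = x.2.2 - y.2.2 := rfl
    rw [s3]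
    nlinarith [s1, s2]
  · refine ⟨?_, ?_⟩
    · show ‖c1 1 * E (-(α * x.2.2))‖ = 1
      rw [norm_mul, sol_norm _ _ hc1 1 h1, hEn, mul_one]
    · show ‖c2 1 * E (-(β * x.2.2))‖ = 1
      rw [norm_mul, sol_norm _ _ hc2 1 h1, hEn, mul_one]

theorem endg_surj (α β : ℝ) (q : ℍ × ℍ) (hq : q ∈ S33) : ∃ x : Ctrl, IsEndg α β x q := by
  obtain ⟨Z1, hZ1, -, h1⟩ := (exists_log 1 q.1 norm_one hq.1).1
  obtain ⟨Z2, hZ2, -, h2⟩ := (exists_log 1 q.2 norm_one hq.2).1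
  refine ⟨(ContinuousMap.const _ Z1, ContinuousMap.const _ Z2, 0), _, _, isSol_const' hZ1,
    isSol_const' hZ2, ?_⟩
  have hE : E 0 = 1 := E_basic.2.2.1
  rw [one_mul] at h1 h2
  refine Prod.ext ?_ ?_
  · show q.1 = NormedSpace.exp ((1 : ℝ) • Z1) * E (-(α * 0))
    rw [mul_zero, neg_zero, hE, mul_one, one_smul, h1]
  · show q.2 = NormedSpace.exp ((1 : ℝ) • Z2) * E (-(β * 0))
    rw [mul_zero, neg_zero, hE, mul_one, one_smul, h2]

theorem ctrlg_move (α β : ℝ) (x y : Ctrl) (p q : ℍ × ℍ) (hp : IsEndg α β x p)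
    (hq : IsEndg α β y q) (ε : ℝ) (hε : 0 < ε) :
    ∃ γ : Ctrl ≃ Ctrl, (∀ u v, ‖γ u - γ v‖ = ‖u - v‖) ∧
      (∀ u r, IsEndg α β u r → IsEndg α β (γ u) r) ∧ ‖x - γ y‖ ≤ dFg α β p q + ε := by
  obtain ⟨c1, c2, hc1, hc2, hpe⟩ := hp
  obtain ⟨d1, d2, hd1, hd2, hqe⟩ := hq
  have hE := E_basic.1
  have hEn := E_basic.2.1
  have one_mem : (1 : ℝ) ∈ Icc (0 : ℝ) 1 := ⟨zero_le_one, le_rfl⟩
  have nc1 := sol_norm _ _ hc1 1 one_mem
  have nc2 := sol_norm _ _ hc2 1 one_mem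
  have nd1 := sol_norm _ _ hd1 1 one_mem
  have nd2 := sol_norm _ _ hd2 1 one_mem
  obtain ⟨θ, hθ⟩ := exists_lt_of_ciInf_lt
    (show (⨅ θ : ℝ, √(ang p.1 (q.1 * E (α * θ)) ^ 2 + ang p.2 (q.2 * E (β * θ)) ^ 2 + θ ^ 2)) <
      dFg α β p q + ε from by
        show dFg α β p q < dFg α β p q + ε
        linarith)
  set T1 : ℍ := d1 1 * E (-(α * y.2.2)) * E (α * (x.2.2 + θ)) with hT1
  set T2 : ℍ := d2 1 * E (-(β * y.2.2)) * E (β * (x.2.2 + θ)) with hT2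
  have nT1 : ‖T1‖ = 1 := by rw [hT1, norm_mul, norm_mul, hEn, hEn, nd1]; norm_num
  have nT2 : ‖T2‖ = 1 := by rw [hT2, norm_mul, norm_mul, hEn, hEn, nd2]; norm_num
  have a1 : ang (c1 1) T1 = ang p.1 (q.1 * E (α * θ)) := by
    rw [← (ang_inv (E (α * x.2.2)) p.1 (q.1 * E (α * θ)) (hEn _)).2]
    congr 1
    · rw [hpe]
      show c1 1 = c1 1 * E (-(α * x.2.2)) * E (α * x.2.2)
      rw [mul_assoc, ← hE, neg_add_cancel, E_basic.2.2.1, mul_one]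
    · rw [hqe, hT1]
      show d1 1 * E (-(α * y.2.2)) * E (α * (x.2.2 + θ))
        = d1 1 * E (-(α * y.2.2)) * E (α * θ) * E (α * x.2.2)
      rw [add_comm, mul_add, hE]
      simp only [mul_assoc]
  have a2 : ang (c2 1) T2 = ang p.2 (q.2 * E (β * θ)) := by
    rw [← (ang_inv (E (β * x.2.2)) p.2 (q.2 * E (β * θ)) (hEn _)).2]
    congr 1
    · rw [hpe]
      show c2 1 = c2 1 * E (-(β * x.2.2)) * E (β * x.2.2)
      rw [mul_assoc, ← hE, neg_add_cancel, E_basic.2.2.1, mul_one]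
    · rw [hqe, hT2]
      show d2 1 * E (-(β * y.2.2)) * E (β * (x.2.2 + θ))
        = d2 1 * E (-(β * y.2.2)) * E (β * θ) * E (β * x.2.2)
      rw [add_comm, mul_add, hE]
      simp only [mul_assoc]
  obtain ⟨Z1, hZ1, nZ1, eZ1⟩ := (exists_log (c1 1) T1 nc1 nT1).2
  obtain ⟨Z2, hZ2, nZ2, eZ2⟩ := (exists_log (c2 1) T2 nc2 nT2).2
  obtain ⟨g1, g1i, g1d, g1s⟩ := gauge_move x.1 y.1 c1 d1 hc1 hd1 Z1 hZ1
  obtain ⟨g2, g2i, g2d, g2s⟩ := gauge_move x.2.1 y.2.1 c2 d2 hc2 hd2 Z2 hZ2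
  set k : ℝ := x.2.2 + θ - y.2.2 with hk
  let γ : Ctrl ≃ Ctrl := Equiv.prodCongr g1 (Equiv.prodCongr g2 (Equiv.addRight k))
  have hγ1 : ∀ u, (γ u).1 = g1 u.1 := fun u => rfl
  have hγ2 : ∀ u, (γ u).2.1 = g2 u.2.1 := fun u => rfl
  have hγ3 : ∀ u, (γ u).2.2 = u.2.2 + k := fun u => rfl
  have sub1 : ∀ u v : Ctrl, (u - v).1 = u.1 - v.1 := fun _ _ => rfl
  have sub2 : ∀ u v : Ctrl, (u - v).2.1 = u.2.1 - v.2.1 := fun _ _ => rfl
  have sub3 : ∀ u v : Ctrl, (u - v).2.2 = u.2.2 - v.2.2 := fun _ _ => rfl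
  refine ⟨γ, ?_, ?_, ?_⟩
  · intro u v
    have h : ‖γ u - γ v‖ ^ 2 = ‖u - v‖ ^ 2 := by
      rw [ctrl_norm_sq, ctrl_norm_sq, sub1, sub2, sub3, sub1, sub2, sub3, hγ1, hγ1, hγ2, hγ2,
        hγ3, hγ3, g1i, g2i]
      ring
    exact (pow_left_inj₀ (norm_nonneg _) (norm_nonneg _) two_ne_zero).1 h
  · rintro u r ⟨e1, e2, he1, he2, hr⟩
    obtain ⟨e1', he1', v1⟩ := g1s _ _ he1
    obtain ⟨e2', he2', v2⟩ := g2s _ _ he2
    refine ⟨e1', e2', he1', he2', ?_⟩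
    rw [hr, v1, v2, eZ1, eZ2, hγ3]
    refine Prod.ext ?_ ?_
    · show e1 1 * E (-(α * u.2.2)) = _
      exact (end_calc nd1 _ _ _ _ (by rw [hk]; ring)).symm
    · show e2 1 * E (-(β * u.2.2)) = _
      exact (end_calc nd2 _ _ _ _ (by rw [hk]; ring)).symm
  · have h : ‖x - γ y‖ ^ 2 =
        ang p.1 (q.1 * E (α * θ)) ^ 2 + ang p.2 (q.2 * E (β * θ)) ^ 2 + θ ^ 2 := by
      rw [ctrl_norm_sq, sub1, sub2, sub3, hγ1, hγ2, hγ3, g1d, g2d, nZ1, nZ2, a1, a2, hk]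
      ring
    have h2 : ‖x - γ y‖ =
        √(ang p.1 (q.1 * E (α * θ)) ^ 2 + ang p.2 (q.2 * E (β * θ)) ^ 2 + θ ^ 2) := by
      rw [← h, Real.sqrt_sq (norm_nonneg _)]
    rw [h2]
    exact hθ.le

end Pool.Agent.Y503.HG
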